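import Pool.Agent.P.MP_750e2a_gt.FCSpace

/-! The continuous functions themselves form the image of an upper semicontinuous compact-valued map. -/

set_option autoImplicit false

open Set Filter Topology

namespace Pool.Agent.P.MP_750e2a_gt.FC

open X

/-- The points on one of finitely many branches. -/
def Bad (m : ℕ) (Ξ : ℕ → L) (x : X) : Prop := ∃ i < m, ∃ n < m, ∃ t ∈ B n (Ξ i), x = pt t

theorem isClosed_Bad (m : ℕ) (x : X) : IsClosed {Ξ : ℕ → L | Bad m Ξ x} := by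
  cases x with
  | cpt η =>
    have : {Ξ : ℕ → L | Bad m Ξ (cpt η)} = ∅ := by
      ext Ξ; simp [Bad]
    rw [this]; exact isClosed_empty
  | pt u =>
    have : {Ξ : ℕ → L | Bad m Ξ (pt u)} = ⋃ i ∈ Iio m, ⋃ n ∈ Iio m,
        ⋂ k ∈ Iic (dep n u), ⋂ l, {Ξ : ℕ → L | e u (n, k, l) = Ξ i (n, k, l)} := by
      ext Ξ
      simp only [Bad, mem_ofPred_eq, mem_iUnion, mem_iInter, mem_Iio, mem_Iic, exists_prop]
      constructor
      · rintro ⟨i, hi, n, hn, t, ht, h⟩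
        obtain rfl : u = t := by simpa using h
        exact ⟨i, hi, n, hn, ht⟩
      · rintro ⟨i, hi, n, hn, h⟩
        exact ⟨i, hi, n, hn, u, h, rfl⟩
    rw [this]
    refine (finite_Iio m).isClosed_biUnion fun i _ => (finite_Iio m).isClosed_biUnion fun n _ =>
      isClosed_biInter fun k _ => isClosed_iInter fun l => isClosed_eq continuous_const ?_
    exact (continuous_apply _).comp (continuous_apply i)

def Osc (j m : ℕ) : Set ((X → ℝ) × (ℕ → L)) :=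
  {p | ∀ x y, E x ∈ Cyl (E y) m →
    Bad m p.2 x ∨ Bad m p.2 y ∨ |p.1 x - p.1 y| ≤ 1 / ((j : ℝ) + 1)}

theorem isClosed_Osc (j m : ℕ) : IsClosed (Osc j m) := by
  have : Osc j m = ⋂ x, ⋂ y, ⋂ _ : E x ∈ Cyl (E y) m,
      (Prod.snd ⁻¹' {Ξ | Bad m Ξ x} ∪ (Prod.snd ⁻¹' {Ξ | Bad m Ξ y} ∪
        {p : (X → ℝ) × (ℕ → L) | |p.1 x - p.1 y| ≤ 1 / ((j : ℝ) + 1)})) := by
    ext p; simp [Osc]
  rw [this]
  refine isClosed_iInter fun x => isClosed_iInter fun y => isClosed_iInter fun _ =>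
    ((isClosed_Bad m x).preimage continuous_snd).union
      (((isClosed_Bad m y).preimage continuous_snd).union (isClosed_le ?_ continuous_const))
  exact (((continuous_apply x).comp continuous_fst).sub
    ((continuous_apply y).comp continuous_fst)).abs

def A (j m : ℕ) : Set (X → ℝ) := Prod.fst '' Osc j m

theorem isClosed_A (j m : ℕ) : IsClosed (A j m) :=
  isClosedMap_fst_of_compactSpace _ (isClosed_Osc j m)

theorem continuous_of_A {f : X → ℝ} (h : ∀ j, ∃ m, f ∈ A j m) : Continuous f := by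
  refine continuous_iff_continuousAt.2 fun x => ?_
  cases x with
  | pt t =>
    unfold ContinuousAt
    rw [(isOpen_singleton_iff_nhds_eq_pure _).1 (isClopen_pt t).2]
    exact tendsto_pure_nhds f _
  | cpt ξ =>
    refine Metric.tendsto_nhds.2 fun ε hε => ?_
    obtain ⟨j, hj⟩ := exists_nat_one_div_lt hε
    obtain ⟨m, ⟨g, Ξ⟩, hp, rfl⟩ := h j
    choose c hc using fun p : ℕ × ℕ => avoid_B p.2 ξ (Ξ p.1)
    obtain ⟨k, hk⟩ := (((finite_Iio m).prod (finite_Iio m)).image c).bddAbove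
    filter_upwards [(hasBasis_cpt ξ).mem_of_mem (i := max m k) trivial] with x hx
    rcases hp x (cpt ξ) (N_anti ξ (le_max_left _ _) hx).1 with hb | hb | hb
    · obtain ⟨i, hi, n, hn, t, ht, rfl⟩ := hb
      exact absurd (N_anti ξ ((hk ⟨(i, n), ⟨hi, hn⟩, rfl⟩).trans (le_max_right _ _)) hx)
        (hc (i, n) t ht)
    · obtain ⟨i, _, n, _, t, _, h⟩ := hb
      simp at h
    · exact lt_of_le_of_lt hb hj

theorem exists_A {f : X → ℝ} (hf : Continuous f) (j : ℕ) : ∃ m, f ∈ A j m := by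
  have hε : (0 : ℝ) < 1 / ((j : ℝ) + 1) / 2 := by positivity
  have hU : ∀ ξ, IsOpen {x | |f x - f (cpt ξ)| < 1 / ((j : ℝ) + 1) / 2} := fun ξ =>
    isOpen_lt (hf.sub continuous_const).abs continuous_const
  choose k hk using fun ξ => hU ξ ξ (by simpa using hε)
  obtain ⟨S, h1, -⟩ := cover k
  obtain ⟨m, hm⟩ := (S.finite_toSet.image k).bddAbove
  obtain ⟨n0, Ξ0, hΞ0⟩ : ∃ (n0 : ℕ) (Ξ0 : ℕ → L), ∀ ξ ∈ S, ∃ i < n0, Ξ0 i = ξ := by
    refine ⟨S.toList.length, fun i => S.toList.getD i (fun _ => false), fun ξ hξ => ?_⟩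
    obtain ⟨i, hi, h⟩ := List.getElem_of_mem (Finset.mem_toList.2 hξ)
    exact ⟨i, hi, by rw [← h]; exact (List.getElem_eq_getD _).symm⟩
  refine ⟨max m n0, (f, Ξ0), fun x y hxy => ?_, rfl⟩
  by_contra hc
  push Not at hc
  obtain ⟨hx, hy, hlt⟩ := hc
  obtain ⟨ξ, hξ, hyξ⟩ := h1 (E y)
  have hkm : k ξ ≤ max m n0 := (hm ⟨ξ, hξ, rfl⟩).trans (le_max_left _ _)
  obtain ⟨i, hi, rfl⟩ := hΞ0 ξ hξ
  have hi' : i < max m n0 := hi.trans_le (le_max_right _ _)
  have hy' : y ∈ N (Ξ0 i) (k (Ξ0 i)) :=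
    ⟨hyξ.1, fun n hn t ht h => hy ⟨i, hi', n, hn.trans_le hkm, t, ht, h⟩⟩
  have hx' : x ∈ N (Ξ0 i) (k (Ξ0 i)) :=
    ⟨fun a ha => (hxy a (ha.trans_le hkm)).trans (hyξ.1 a ha),
      fun n hn t ht h => hx ⟨i, hi', n, hn.trans_le hkm, t, ht, h⟩⟩
  have e1 := abs_lt.1 (show |f x - f (cpt (Ξ0 i))| < 1 / ((j : ℝ) + 1) / 2 from hk _ hx')
  have e2 := abs_lt.1 (show |f y - f (cpt (Ξ0 i))| < 1 / ((j : ℝ) + 1) / 2 from hk _ hy')
  refine absurd hlt (not_lt.2 (abs_le.2 ⟨?_, ?_⟩)) <;> dsimp only <;> linarith [e1.1, e1.2, e2.1, e2.2]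

def ev (σ : ℕ → ℕ) : ℕ → ℕ := fun n => σ (2 * n)

theorem continuous_ev : Continuous ev := continuous_pi fun _ => continuous_apply _

def Gr : Set ((ℕ → ℕ) × (X → ℝ)) := {p | ∀ j, p.2 ∈ A j (p.1 (2 * j + 1))}

theorem isClosed_Gr : IsClosed Gr := by
  have : Gr = ⋂ j, ⋂ m, ({p : (ℕ → ℕ) × (X → ℝ) | p.1 (2 * j + 1) = m}ᶜ ∪ Prod.snd ⁻¹' A j m) := by
    ext p
    simp only [Gr, mem_ofPred_eq, mem_iInter, mem_union, mem_compl_iff, mem_preimage]
    refine forall_congr' fun j => ⟨fun h m => ?_, fun h => (h _).resolve_left (by simp)⟩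
    by_cases hm : p.1 (2 * j + 1) = m
    · exact Or.inr (hm ▸ h)
    · exact Or.inl hm
  rw [this]
  refine isClosed_iInter fun j => isClosed_iInter fun m => IsClosed.union ?_
    ((isClosed_A j m).preimage continuous_snd)
  have hc : Continuous fun p : (ℕ → ℕ) × (X → ℝ) => p.1 (2 * j + 1) :=
    (continuous_apply (2 * j + 1)).comp continuous_fst
  exact ((isOpen_discrete ({m} : Set ℕ)).preimage hc).isClosed_compl

def K (σ : ℕ → ℕ) : Set (X → ℝ) := F (ev σ) ∩ {f | (σ, f) ∈ Gr}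

theorem isCompact_K (σ : ℕ → ℕ) : IsCompact (K σ) :=
  (isCompact_F _).inter_right (isClosed_Gr.preimage (Continuous.prodMk_right σ))

theorem iUnion_K : (⋃ σ, K σ) = {f : X → ℝ | Continuous f} := by
  ext f
  simp only [mem_iUnion, mem_ofPred_eq]
  refine ⟨fun ⟨σ, hσ⟩ => continuous_of_A fun j => ⟨_, hσ.2 j⟩, fun hf => ?_⟩
  obtain ⟨α, hα⟩ := mem_F f hf
  choose γ hγ using exists_A hf
  refine ⟨fun n => if n % 2 = 0 then α (n / 2) else γ (n / 2), ?_, fun j => ?_⟩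
  · have : ev (fun n => if n % 2 = 0 then α (n / 2) else γ (n / 2)) = α := by
      funext n; simp [ev]
    rwa [this]
  · have h1 : (2 * j + 1) % 2 ≠ 0 := by omega
    have h2 : (2 * j + 1) / 2 = j := by omega
    simpa only [if_neg h1, h2] using hγ j

theorem usc_K (σ : ℕ → ℕ) (U : Set (X → ℝ)) (hU : IsOpen U) (h : K σ ⊆ U) :
    ∀ᶠ τ in 𝓝 σ, K τ ⊆ U := by
  have hc : Continuous fun p : (ℕ → ℕ) × (X → ℝ) => (p.1, Phi (ev p.1, p.2)) :=
    continuous_fst.prodMk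
      (continuous_Phi.comp ((continuous_ev.comp continuous_fst).prodMk continuous_snd))
  have hO : IsOpen (Grᶜ ∪ Prod.snd ⁻¹' U) :=
    isClosed_Gr.isOpen_compl.union (hU.preimage continuous_snd)
  have := isCompact_cube.eventually_forall_of_forall_eventually (x₀ := σ)
    (P := fun τ g => (τ, Phi (ev τ, g)) ∈ Grᶜ ∪ Prod.snd ⁻¹' U) (fun g hg =>
      hc.continuousAt.eventually_mem (hO.mem_nhds (by
        by_cases hg' : (σ, Phi (ev σ, g)) ∈ Gr
        · exact Or.inr (h ⟨⟨g, hg, rfl⟩, hg'⟩)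
        · exact Or.inl hg')))
  refine this.mono ?_
  rintro τ hτ _ ⟨⟨g, hg, rfl⟩, hG⟩
  exact (hτ g hg).resolve_left fun h => h hG

end Pool.Agent.P.MP_750e2a_gt.FC
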