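import Mathlib

/-! Countably many trees on the set of well-founded trees, and their branches. -/

set_option autoImplicit false

open Set

namespace Pool.Agent.P.MP_750e2a_gt.FC

/-- Well-founded countably branching trees. In the `n`-th tree order the parent of `node f` is `f n`. -/
inductive W : Type
  | leaf : W
  | node : (ℕ → W) → W

open W

def dep (n : ℕ) : W → ℕ
  | leaf => 0
  | node f => dep n (f n) + 1

/-- The ancestor at depth `k` in the `n`-th tree order. -/
noncomputable def path (n : ℕ) : W → ℕ → W
  | leaf => fun _ => leaf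
  | node f => fun k => if k = dep n (f n) + 1 then node f else path n (f n) k

def code : W → List ℕ → Bool
  | leaf, _ => false
  | node _, [] => true
  | node f, n :: l => code (f n) l

theorem code_inj : ∀ t u : W, code t = code u → t = u := by
  intro t
  induction t with
  | leaf =>
    intro u h
    cases u with
    | leaf => rfl
    | node g => have := congrFun h []; simp [code] at this
  | node f ih =>
    intro u h
    cases u with
    | leaf => have := congrFun h []; simp [code] at this
    | node g =>
      congr 1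
      funext n
      exact ih n (g n) (funext fun l => by simpa [code] using congrFun h (n :: l))

theorem path_dep (n : ℕ) (t : W) : path n t (dep n t) = t := by
  cases t with
  | leaf => rfl
  | node f => simp [path, dep]

abbrev I : Type := ℕ × ℕ × List ℕ

abbrev L : Type := I → Bool

noncomputable def e (t : W) : L := fun i => code (path i.1 t i.2.1) i.2.2

/-- The branch of the `n`-th tree coded by `ξ`. -/
def B (n : ℕ) (ξ : L) : Set W := {t | ∀ k ≤ dep n t, ∀ l, e t (n, k, l) = ξ (n, k, l)}

theorem B_inj {n : ℕ} {ξ : L} {t u : W} (ht : t ∈ B n ξ) (hu : u ∈ B n ξ)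
    (h : dep n t = dep n u) : t = u := by
  refine code_inj _ _ (funext fun l => ?_)
  have h1 := ht (dep n t) le_rfl l
  have h2 := hu (dep n u) le_rfl l
  simp only [e, path_dep] at h1 h2
  rw [h1, h2, h]

theorem B_fin (n : ℕ) (ξ : L) (m : ℕ) : {t | t ∈ B n ξ ∧ dep n t ≤ m}.Finite :=
  Set.Finite.of_finite_image (f := dep n) ((finite_le_nat m).subset (by
    rintro _ ⟨t, ht, rfl⟩; exact ht.2)) (fun _ ht _ hu h => B_inj ht.1 hu.1 h)

theorem exists_branch (D : ℕ → Set W) (hD : ∀ t, ∃ n, t ∈ D n) :
    ∃ n ξ, (D n ∩ B n ξ).Infinite := by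
  have h1 : ∃ n, ∀ p, ∃ f : ℕ → W, f n = p ∧ node f ∈ D n := by
    by_contra hc
    push Not at hc
    choose p hp using hc
    obtain ⟨m, hm⟩ := hD (node p)
    exact hp m p rfl hm
  obtain ⟨n, hn⟩ := h1
  choose f hf hfD using hn
  let b : ℕ → W := fun j => Nat.rec leaf (fun _ p => node (f p)) j
  have hb : ∀ j, b (j + 1) = node (f (b j)) := fun _ => rfl
  have hdep : ∀ j, dep n (b j) = j := by
    intro j
    induction j with
    | zero => rfl
    | succ j ih => rw [hb, dep, hf, ih]
  have hpath : ∀ j, ∀ k ≤ j, path n (b j) k = b k := by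
    intro j
    induction j with
    | zero => intro k hk; obtain rfl : k = 0 := by omega
              rfl
    | succ j ih =>
      intro k hk
      rw [hb]
      simp only [path, hf, hdep]
      split_ifs with h
      · rw [h, hb]
      · exact ih k (by omega)
  refine ⟨n, fun i => code (b i.2.1) i.2.2, infinite_of_injective_forall_mem
    (f := fun j => b (j + 1)) (fun j j' h => ?_) (fun j => ⟨hfD _, fun k hk l => ?_⟩)⟩
  · have := congrArg (dep n) h
    simp only [hdep] at this
    omega
  · have hk' : k ≤ j + 1 := le_of_le_of_eq hk (hdep (j + 1))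
    simp only [e, hpath _ k hk']

def s (k : ℕ) (t : W) : ℕ := ∑ n ∈ Finset.range k, dep n t

theorem s_mono {k l : ℕ} (h : k ≤ l) (t : W) : s k t ≤ s l t :=
  Finset.sum_le_sum_of_subset (Finset.range_mono h)

/-- Sets on which the sum of the first `k` depths is finite-to-one, for some `k`. -/
def Small (A : Set W) : Prop := ∃ k, ∀ m, {t | t ∈ A ∧ s k t ≤ m}.Finite

theorem Small.mono {A C : Set W} (hC : Small C) (h : A ⊆ C) : Small A := by
  obtain ⟨k, hk⟩ := hC
  exact ⟨k, fun m => (hk m).subset fun t ht => ⟨h ht.1, ht.2⟩⟩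

theorem Small.union {A C : Set W} (hA : Small A) (hC : Small C) : Small (A ∪ C) := by
  obtain ⟨k, hk⟩ := hA
  obtain ⟨l, hl⟩ := hC
  refine ⟨max k l, fun m => ((hk m).union (hl m)).subset ?_⟩
  rintro t ⟨ht | ht, hm⟩
  · exact Or.inl ⟨ht, (s_mono (le_max_left _ _) t).trans hm⟩
  · exact Or.inr ⟨ht, (s_mono (le_max_right _ _) t).trans hm⟩

theorem small_empty : Small ∅ := ⟨0, fun _ => by simp⟩

theorem small_biUnion {ι : Type} (S : Finset ι) (A : ι → Set W) (h : ∀ i, Small (A i)) :
    Small (⋃ i ∈ S, A i) := by
  classical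
  induction S using Finset.induction_on with
  | empty => simpa using small_empty
  | insert a S _ ih => rw [Finset.set_biUnion_insert]; exact (h a).union ih

theorem small_B (n : ℕ) (ξ : L) : Small (B n ξ) := by
  refine ⟨n + 1, fun m => (B_fin n ξ m).subset fun t ht => ⟨ht.1, le_trans ?_ ht.2⟩⟩
  unfold s
  rw [Finset.sum_range_succ]
  omega

theorem Small.countable {A : Set W} (hA : Small A) : A.Countable := by
  obtain ⟨k, hk⟩ := hA
  refine (countable_iUnion fun m => (hk m).countable).mono ?_
  intro t ht
  exact mem_iUnion.2 ⟨s k t, ht, le_rfl⟩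

end Pool.Agent.P.MP_750e2a_gt.FC
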