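import Mathlib

/-! A Lindelöf space whose continuous functions lie in a K-analytic set of real functions is a
countable union of locally compact subspaces. -/

set_option autoImplicit false

open Set Filter Topology

namespace Pool.Agent.P.MP_750e2a_gt.LC

variable {X : Type} [TopologicalSpace X]

omit [TopologicalSpace X] in
theorem bdd_below {F : (ℕ → ℕ) → Set (X → ℝ)} (hc : ∀ σ, IsCompact (F σ))
    (hu : ∀ (σ : ℕ → ℕ) (U : Set (X → ℝ)), IsOpen U → F σ ⊆ U → ∀ᶠ τ in nhds σ, F τ ⊆ U)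
    (α : ℕ → ℕ) (x : X) : ∃ M : ℝ, ∀ β ≤ α, ∀ g ∈ F β, g x ≤ M := by
  have hK : IsCompact {β : ℕ → ℕ | β ≤ α} := by
    have := isCompact_univ_pi fun i => (finite_Iic (α i)).isCompact
    refine this.of_isClosed_subset (isClosed_le continuous_id continuous_const) ?_
    exact fun β hβ i _ => hβ i
  refine hK.induction_on (p := fun S => ∃ M : ℝ, ∀ β ∈ S, ∀ g ∈ F β, g x ≤ M)
    ⟨0, fun β h => h.elim⟩ (fun S T hST ⟨M, hM⟩ => ⟨M, fun β h => hM β (hST h)⟩) ?_ ?_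
  · rintro S T ⟨M, hM⟩ ⟨M', hM'⟩
    exact ⟨max M M', fun β h g hg => h.elim (fun h => (hM β h g hg).trans (le_max_left _ _))
      fun h => (hM' β h g hg).trans (le_max_right _ _)⟩
  · intro β _
    obtain ⟨M, hM⟩ := ((hc β).image (continuous_apply x)).bddAbove
    have := hu β {g | g x < M + 1} (isOpen_lt (continuous_apply x) continuous_const)
      fun g hg => lt_of_le_of_lt (hM ⟨g, hg, rfl⟩) (lt_add_one M)
    exact ⟨_, mem_nhdsWithin_of_mem_nhds this, M + 1, fun τ hτ g hg => le_of_lt (hτ hg)⟩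

/-- A monotone family of real functions that dominates every continuous function. -/
def Dom (φ : (ℕ → ℕ) → X → ℝ) : Prop :=
  (∀ α β, α ≤ β → ∀ x, φ α x ≤ φ β x) ∧ ∀ g : X → ℝ, Continuous g → ∃ α, ∀ x, g x ≤ φ α x

theorem exists_dom {F : (ℕ → ℕ) → Set (X → ℝ)} (hc : ∀ σ, IsCompact (F σ))
    (hu : ∀ (σ : ℕ → ℕ) (U : Set (X → ℝ)), IsOpen U → F σ ⊆ U → ∀ᶠ τ in nhds σ, F τ ⊆ U)
    (hF : {f : X → ℝ | Continuous f} ⊆ ⋃ σ, F σ) : ∃ φ : (ℕ → ℕ) → X → ℝ, Dom φ := by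
  let S : (ℕ → ℕ) → X → Set ℝ := fun α x => insert 0 {r | ∃ β ≤ α, ∃ g ∈ F β, r = g x}
  have hb : ∀ α x, BddAbove (S α x) := by
    intro α x
    obtain ⟨M, hM⟩ := bdd_below hc hu α x
    refine BddAbove.insert _ ⟨M, ?_⟩
    rintro _ ⟨β, hβ, g, hg, rfl⟩
    exact hM β hβ g hg
  refine ⟨fun α x => sSup (S α x), fun α β h x => ?_, fun g hg => ?_⟩
  · refine csSup_le_csSup (hb β x) (insert_nonempty _ _) (insert_subset_insert ?_)
    rintro _ ⟨γ, hγ, g, hg, rfl⟩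
    exact ⟨γ, hγ.trans h, g, hg, rfl⟩
  · obtain ⟨α, hα⟩ := mem_iUnion.1 (hF hg)
    exact ⟨α, fun x => le_csSup (hb α x) (Or.inr ⟨α, le_rfl, g, hα, rfl⟩)⟩

theorem exists_sum (g : ℕ → X → ℝ) (hc : ∀ k, Continuous (g k)) (h0 : ∀ k x, 0 ≤ g k x)
    (hl : ∀ x, ∃ U ∈ 𝓝 x, ∃ m, ∀ k, m ≤ k → ∀ y ∈ U, g k y = 0) :
    ∃ G : X → ℝ, Continuous G ∧ (∀ x, 0 ≤ G x) ∧ (∀ k x, g k x ≤ G x) ∧
      ∀ x, (∀ k, g k x = 0) → G x = 0 := by
  have hlf : LocallyFinite fun k => Function.support (g k) := by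
    intro x
    obtain ⟨U, hU, m, hm⟩ := hl x
    refine ⟨U, hU, (finite_lt_nat m).subset fun k ⟨y, hy, hyU⟩ => ?_⟩
    by_contra hk
    exact hy (hm k (not_lt.1 hk) y hyU)
  refine ⟨fun x => ∑ᶠ k, g k x, continuous_finsum hc hlf, fun x => finsum_nonneg fun k => h0 k x,
    fun k x => single_le_finsum k (hlf.point_finite x) fun j => h0 j x, fun x hx => ?_⟩
  simp [hx]

theorem exists_bump [CompletelyRegularSpace X] {V : Set X} (hV : IsOpen V) {x : X} (hx : x ∈ V) :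
    ∃ g : X → ℝ, Continuous g ∧ (∀ y, 0 ≤ g y) ∧ g x = 1 ∧ ∀ y, y ∉ V → g y = 0 := by
  obtain ⟨f, hf, h0, h1⟩ := CompletelyRegularSpace.completely_regular_isOpen x V hV hx
  refine ⟨fun y => 1 - (f y : ℝ), continuous_const.sub (continuous_subtype_val.comp hf),
    fun y => sub_nonneg.2 (f y).2.2, by simp [h0], fun y hy => ?_⟩
  have : f y = 1 := h1 hy
  simp [this]

theorem compact_of_bdd [CompletelyRegularSpace X] [LindelofSpace X] {Z : Set X} (hZ : IsClosed Z)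
    (hb : ∀ f : X → ℝ, Continuous f → ∃ k : ℕ, ∀ z ∈ Z, f z ≤ k) : IsCompact Z := by
  classical
  rcases Z.eq_empty_or_nonempty with rfl | ⟨z0, hz0⟩
  · exact isCompact_empty
  refine isCompact_of_finite_subcover fun {ι} U hU hcov => ?_
  obtain ⟨i0, -⟩ := mem_iUnion.1 (hcov hz0)
  have h1 : ∀ x : X, ∃ i, ∃ g : X → ℝ, Continuous g ∧ (∀ y, 0 ≤ g y) ∧ g x = 1 ∧
      ∀ y, y ∉ U i ∪ Zᶜ → g y = 0 := by
    intro x
    by_cases hx : x ∈ Z
    · obtain ⟨i, hi⟩ := mem_iUnion.1 (hcov hx)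
      exact ⟨i, exists_bump ((hU i).union hZ.isOpen_compl) (Or.inl hi)⟩
    · exact ⟨i0, exists_bump ((hU i0).union hZ.isOpen_compl) (Or.inr hx)⟩
  choose c h hc h0 h1 hz using h1
  have : Nonempty X := ⟨z0⟩
  obtain ⟨u, hu⟩ := isLindelof_univ.indexed_countable_subcover
    (fun x : X => {y | (1 : ℝ) / 2 < h x y}) (fun x => isOpen_lt continuous_const (hc x))
    (fun x _ => mem_iUnion.2 ⟨x, by simp [h1 x]; norm_num⟩)
  let p : ℕ → X → ℝ := fun n y => ∑ i ∈ Finset.range n, h (u i) y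
  have hp : ∀ n, Continuous (p n) := fun n => continuous_finsetSum _ fun i _ => hc _
  obtain ⟨G, hG, -, hle, -⟩ := exists_sum (fun n y => n * max 0 (1 - 2 * p n y))
    (fun n => continuous_const.mul
      (continuous_const.max (continuous_const.sub (continuous_const.mul (hp n)))))
    (fun n y => mul_nonneg (Nat.cast_nonneg n) (le_max_left _ _)) (fun x => by
      obtain ⟨i, hi⟩ := mem_iUnion.1 (hu (mem_univ x))
      refine ⟨_, (isOpen_lt continuous_const (hc (u i))).mem_nhds hi, i + 1, fun k hk y hy => ?_⟩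
      have h2 : h (u i) y ≤ p k y :=
        Finset.single_le_sum (f := fun i => h (u i) y) (fun j _ => h0 _ _) (Finset.mem_range.2 hk)
      have h3 : (1 : ℝ) / 2 < h (u i) y := hy
      rw [max_eq_left (by linarith), mul_zero])
  obtain ⟨k, hk⟩ := hb G hG
  refine ⟨(Finset.range (k + 1)).image fun i => c (u i), fun z hz' => ?_⟩
  by_contra hn
  have h4 : p (k + 1) z = 0 := Finset.sum_eq_zero fun i hi => hz _ _ fun h => h.elim
    (fun h => hn (mem_iUnion₂.2 ⟨_, Finset.mem_image_of_mem _ hi, h⟩)) fun h => h hz'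
  have h5 := (hle (k + 1) z).trans (hk z hz')
  simp only [h4] at h5
  norm_num at h5

/-- The first `n` values of a sequence, last value first. -/
def pre (β : ℕ → ℕ) : ℕ → List ℕ
  | 0 => []
  | n + 1 => β n :: pre β n

theorem length_pre (β : ℕ → ℕ) (n : ℕ) : (pre β n).length = n := by
  induction n with
  | zero => rfl
  | succ n ih => simp [pre, ih]

theorem pre_eq {α β : ℕ → ℕ} {n : ℕ} (h : pre β n = pre α n) : ∀ i < n, β i = α i := by
  induction n with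
  | zero => intro i hi; omega
  | succ n ih =>
    simp only [pre, List.cons.injEq] at h
    intro i hi
    rcases Nat.lt_succ_iff_lt_or_eq.1 hi with hi | rfl
    · exact ih h.2 i hi
    · exact h.1

/-- Every nonnegative continuous function vanishing off `V` is dominated by a branch through `σ`. -/
def Good (φ : (ℕ → ℕ) → X → ℝ) (σ : List ℕ) (V : Set X) : Prop :=
  IsOpen V ∧ ∀ g : X → ℝ, Continuous g → (∀ y, 0 ≤ g y) → (∀ y, y ∉ V → g y = 0) →
    ∃ β, pre β σ.length = σ ∧ ∀ x, g x ≤ φ β x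

theorem Good.step {φ : (ℕ → ℕ) → X → ℝ} {σ : List ℕ} {V : Set X} (hV : Good φ σ V)
    {f : X → ℝ} (hf : Continuous f) : ∃ k : ℕ, Good φ (k :: σ) (V ∩ {y | (k : ℝ) < f y}) := by
  by_contra hn
  have h1 : ∀ k : ℕ, ∃ g : X → ℝ, Continuous g ∧ (∀ y, 0 ≤ g y) ∧
      (∀ y, y ∉ V ∩ {y | (k : ℝ) < f y} → g y = 0) ∧
      ¬ ∃ β, pre β (k :: σ).length = k :: σ ∧ ∀ x, g x ≤ φ β x := by
    intro k
    by_contra hk
    refine hn ⟨k, hV.1.inter (isOpen_lt continuous_const hf), fun g a b c => ?_⟩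
    by_contra d
    exact hk ⟨g, a, b, c, d⟩
  choose g hc h0 hz hb using h1
  obtain ⟨G, hG, hG0, hle, hGz⟩ := exists_sum g hc h0 (fun x => by
    obtain ⟨m, hm⟩ := exists_nat_ge (f x + 1)
    refine ⟨{y | f y < f x + 1}, (isOpen_lt hf continuous_const).mem_nhds (lt_add_one (f x)), m,
      fun k hk y hy => hz k y fun h => ?_⟩
    have h2 : (m : ℝ) ≤ k := Nat.cast_le.2 hk
    have h3 : (k : ℝ) < f y := h.2
    have h4 : f y < f x + 1 := hy
    linarith)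
  obtain ⟨β, hβ, hd⟩ := hV.2 G hG hG0 fun y hy => hGz y fun k => hz k y fun h => hy h.1
  exact hb (β σ.length) ⟨β, by simp [pre, hβ], fun x => (hle _ x).trans (hd x)⟩

def O (φ : (ℕ → ℕ) → X → ℝ) (σ : List ℕ) : Set X := ⋃₀ {V | Good φ σ V}

theorem isOpen_O (φ : (ℕ → ℕ) → X → ℝ) (σ : List ℕ) : IsOpen (O φ σ) :=
  isOpen_sUnion fun _ h => h.1

theorem not_all [CompletelyRegularSpace X] {φ : (ℕ → ℕ) → X → ℝ} (hφ : Dom φ) (x : X)
    (α : ℕ → ℕ) : ¬ ∀ n, x ∈ O φ (pre α n) := by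
  intro h
  have h1 : ∀ n : ℕ, ∃ β, pre β n = pre α n ∧ (n : ℝ) ≤ φ β x := by
    intro n
    obtain ⟨V, hV, hx⟩ := h n
    obtain ⟨g, hc, h0, h1, hz⟩ := exists_bump hV.1 hx
    obtain ⟨β, hβ, hd⟩ := hV.2 (fun y => n * g y) (continuous_const.mul hc)
      (fun y => mul_nonneg (Nat.cast_nonneg n) (h0 y)) (fun y hy => by rw [hz y hy, mul_zero])
    rw [length_pre] at hβ
    exact ⟨β, hβ, by simpa [h1] using hd x⟩
  choose β hβ hd using h1
  let γ : ℕ → ℕ := fun i => α i + ∑ n ∈ Finset.range (i + 1), β n i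
  have hle : ∀ n, β n ≤ γ := by
    intro n i
    by_cases hi : i < n
    · rw [pre_eq (hβ n) i hi]; exact Nat.le_add_right _ _
    · exact le_add_left (Finset.single_le_sum (f := fun n => β n i) (fun _ _ => Nat.zero_le _)
        (Finset.mem_range.2 (by omega)))
  obtain ⟨n, hn⟩ := exists_nat_gt (φ γ x)
  exact absurd ((hd n).trans (hφ.1 _ _ (hle n) x)) (not_le.2 hn)

def Lp (φ : (ℕ → ℕ) → X → ℝ) (σ : List ℕ) : Set X := O φ σ \ ⋃ k, O φ (k :: σ)

theorem exists_Lp [CompletelyRegularSpace X] {φ : (ℕ → ℕ) → X → ℝ} (hφ : Dom φ) (x : X) :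
    ∃ σ, x ∈ Lp φ σ := by
  by_contra hn
  have h1 : ∀ σ, ∃ k, x ∈ O φ σ → x ∈ O φ (k :: σ) := by
    intro σ
    by_cases hx : x ∈ O φ σ
    · by_contra hk
      refine hn ⟨σ, hx, fun h => ?_⟩
      obtain ⟨k, h⟩ := mem_iUnion.1 h
      exact hk ⟨k, fun _ => h⟩
    · exact ⟨0, fun h => absurd h hx⟩
  choose c hc using h1
  let l : ℕ → List ℕ := fun n => Nat.rec [] (fun _ σ => c σ :: σ) n
  have hl : ∀ n, pre (fun i => c (l i)) n = l n := by
    intro n
    induction n with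
    | zero => rfl
    | succ n ih => rw [pre, ih]
  refine not_all hφ x (fun i => c (l i)) fun n => ?_
  rw [hl]
  induction n with
  | zero =>
    refine ⟨univ, ⟨isOpen_univ, fun g hg _ _ => ?_⟩, mem_univ x⟩
    obtain ⟨α, hα⟩ := hφ.2 g hg
    exact ⟨α, rfl, hα⟩
  | succ n ih => exact hc _ ih

theorem locallyCompact_Lp [T35Space X] [LindelofSpace X] (φ : (ℕ → ℕ) → X → ℝ) (σ : List ℕ) :
    LocallyCompactSpace (Lp φ σ) := by
  have : WeaklyLocallyCompactSpace (Lp φ σ) := by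
    refine ⟨fun ⟨x, hx⟩ => ?_⟩
    obtain ⟨V, hV, hxV⟩ := hx.1
    obtain ⟨N, hN, hNc, hNV⟩ := exists_mem_nhds_isClosed_subset (hV.1.mem_nhds hxV)
    have hZ : IsCompact (N \ ⋃ k, O φ (k :: σ)) := by
      refine compact_of_bdd (hNc.sdiff (isOpen_iUnion fun k => isOpen_O φ _)) fun f hf => ?_
      obtain ⟨k, hk⟩ := Good.step hV hf
      refine ⟨k, fun z hz => not_lt.1 fun h => hz.2 (mem_iUnion.2 ⟨k, _, hk, hNV hz.1, h⟩)⟩
    refine ⟨Subtype.val ⁻¹' N, ?_, continuous_subtype_val.continuousAt.preimage_mem_nhds hN⟩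
    rw [Subtype.isCompact_iff, Subtype.image_preimage_coe]
    have : Lp φ σ ∩ N = N \ ⋃ k, O φ (k :: σ) :=
      Set.ext fun y => ⟨fun h => ⟨h.2, h.1.2⟩, fun h => ⟨⟨⟨V, hV, hNV h.1⟩, h.2⟩, h.1⟩⟩
    rwa [this]
  infer_instance

theorem main [T35Space X] [LindelofSpace X] {φ : (ℕ → ℕ) → X → ℝ} (hφ : Dom φ) :
    ∃ L : ℕ → Set X, (∀ n, LocallyCompactSpace (L n)) ∧ (⋃ n, L n) = univ := by
  obtain ⟨e, he⟩ := exists_surjective_nat (List ℕ)
  refine ⟨fun n => Lp φ (e n), fun n => locallyCompact_Lp φ _, eq_univ_of_forall fun x => ?_⟩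
  obtain ⟨σ, hσ⟩ := exists_Lp hφ x
  obtain ⟨n, rfl⟩ := he σ
  exact mem_iUnion.2 ⟨n, hσ⟩

/-- The hereditarily Lindelöf case. -/
theorem sigmaCompact_of_hereditarilyLindelof [T35Space X] [HereditarilyLindelofSpace X]
    {φ : (ℕ → ℕ) → X → ℝ} (hφ : Dom φ) : SigmaCompactSpace X := by
  obtain ⟨L, hL, hU⟩ := main hφ
  refine ⟨hU ▸ isSigmaCompact_iUnion L fun n => ?_⟩
  have := hL n
  have hl : LindelofSpace (L n) :=
    isLindelof_iff_lindelofSpace.1 (HereditarilyLindelofSpace.isLindelof (L n))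
  choose K hK hx using fun x : L n => exists_compact_mem_nhds x
  obtain ⟨s, hs, -, hc⟩ := isLindelof_univ.elim_nhds_subcover K fun x _ => hx x
  refine isSigmaCompact_iff_sigmaCompactSpace.2 (SigmaCompactSpace.of_countable _ (hs.image K)
    (forall_mem_image.2 fun x _ => hK x) ?_)
  rw [sUnion_image]
  exact univ_subset_iff.1 hc

end Pool.Agent.P.MP_750e2a_gt.LC
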