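import Mathlib

set_option autoImplicit false

open Set Filter Topology

namespace Pool.Agent.P.MP_750e2a_gt

/-- Sum of the first `k` coordinates. -/
def s (k : ℕ) (t : ℕ → ℕ) : ℕ := ∑ n ∈ Finset.range k, t n

lemma s_mono {k l : ℕ} (h : k ≤ l) (t : ℕ → ℕ) : s k t ≤ s l t :=
  Finset.sum_le_sum_of_subset (Finset.range_mono h)

lemma le_s (m : ℕ) (t : ℕ → ℕ) : t m ≤ s (m + 1) t := by
  unfold s
  rw [Finset.sum_range_succ]
  omega

/-- Sets on which the restriction to the first `k` coordinates is finite-to-one, for some `k`. -/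
def Small (A : Set (ℕ → ℕ)) : Prop := ∃ k, ∀ m, {t | t ∈ A ∧ s k t ≤ m}.Finite

lemma Small.mono {A B : Set (ℕ → ℕ)} (hB : Small B) (h : A ⊆ B) : Small A := by
  obtain ⟨k, hk⟩ := hB
  exact ⟨k, fun m => (hk m).subset fun t ht => ⟨h ht.1, ht.2⟩⟩

lemma Small.union {A B : Set (ℕ → ℕ)} (hA : Small A) (hB : Small B) : Small (A ∪ B) := by
  obtain ⟨k, hk⟩ := hA
  obtain ⟨l, hl⟩ := hB
  refine ⟨max k l, fun m => ((hk m).union (hl m)).subset ?_⟩
  rintro t ⟨ht | ht, hm⟩
  · exact Or.inl ⟨ht, (s_mono (le_max_left _ _) t).trans hm⟩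
  · exact Or.inr ⟨ht, (s_mono (le_max_right _ _) t).trans hm⟩

lemma small_of_finite {A : Set (ℕ → ℕ)} (hA : A.Finite) : Small A :=
  ⟨0, fun _ => hA.subset fun _ ht => ht.1⟩

lemma Small.countable {A : Set (ℕ → ℕ)} (hA : Small A) : A.Countable := by
  obtain ⟨k, hk⟩ := hA
  refine (countable_iUnion fun m => (hk m).countable).mono ?_
  intro t ht
  exact mem_iUnion.2 ⟨s k t, ht, le_rfl⟩

/-- The space: the points of the Baire set are isolated, plus one point at infinity. -/
inductive X : Type
  | inf : X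
  | pt : (ℕ → ℕ) → X

open X

instance : TopologicalSpace X where
  IsOpen U := inf ∈ U → Small {t | pt t ∉ U}
  isOpen_univ := fun _ => small_of_finite (by simp)
  isOpen_inter U V hU hV h := by
    refine ((hU h.1).union (hV h.2)).mono ?_
    intro t ht
    simp only [mem_ofPred_eq, mem_inter_iff, not_and_or] at ht
    exact ht
  isOpen_sUnion S hS h := by
    obtain ⟨U, hUS, hU⟩ := h
    refine (hS U hUS hU).mono ?_
    intro t ht h'
    exact ht ⟨U, hUS, h'⟩

lemma isOpen_iff (U : Set X) : IsOpen U ↔ (inf ∈ U → Small {t | pt t ∉ U}) := Iff.rfl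

lemma isOpen_of_not_mem {U : Set X} (h : inf ∉ U) : IsOpen U := fun h' => absurd h' h

lemma continuous_of_small {Y : Type*} [TopologicalSpace Y] (g : X → Y)
    (h : Small {t | g (pt t) ≠ g inf}) : Continuous g := by
  refine ⟨fun V _ hV => h.mono ?_⟩
  intro t ht h'
  apply ht
  change g (pt t) ∈ V
  rw [h']
  exact hV

lemma isOpen_compl_pt (t : ℕ → ℕ) : IsOpen ({pt t}ᶜ : Set X) := by
  intro _
  refine small_of_finite ((finite_singleton t).subset ?_)
  intro u hu
  simpa using hu

instance : T0Space X := by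
  refine (t0Space_iff_exists_isOpen_xor_mem X).2 ?_
  intro x y hxy
  cases x with
  | inf =>
    cases y with
    | inf => exact absurd rfl hxy
    | pt t => exact ⟨{pt t}, isOpen_of_not_mem (by simp), Or.inr ⟨rfl, by simp⟩⟩
  | pt t => exact ⟨{pt t}, isOpen_of_not_mem (by simp), Or.inl ⟨rfl, fun h => hxy h.symm⟩⟩

instance : CompletelyRegularSpace X := by
  classical
  refine ⟨fun x K hK hx => ?_⟩
  cases x with
  | inf =>
    refine ⟨fun y => if y ∈ K then 1 else 0, continuous_of_small _ ?_, by simp [hx], ?_⟩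
    · refine (hK.isOpen_compl hx).mono ?_
      intro t ht
      by_contra h
      apply ht
      have : pt t ∉ K := by simpa using h
      simp [this, hx]
    · intro y hy
      simp [hy]
  | pt t =>
    refine ⟨fun y => if y = pt t then 0 else 1, continuous_of_small _ ?_, by simp, ?_⟩
    · refine small_of_finite ((finite_singleton t).subset ?_)
      intro u hu
      by_contra h
      apply hu
      have : u ≠ t := h
      simp [this]
    · intro y hy
      have : y ≠ pt t := fun h => hx (h ▸ hy)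
      simp [this]

instance : T35Space X where

instance : LindelofSpace X := by
  refine ⟨isLindelof_of_countable_subcover ?_⟩
  intro ι U hU hcov
  have hc : ∀ x : X, ∃ i, x ∈ U i := fun x => mem_iUnion.1 (hcov (mem_univ x))
  choose c hc using hc
  have hA : {t | pt t ∉ U (c inf)}.Countable := (hU _ (hc inf)).countable
  refine ⟨insert (c inf) ((fun t => c (pt t)) '' {t | pt t ∉ U (c inf)}),
    (hA.image _).insert _, ?_⟩
  intro x _
  simp only [mem_iUnion]
  cases x with
  | inf => exact ⟨c inf, mem_insert _ _, hc _⟩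
  | pt t =>
    by_cases ht : pt t ∈ U (c inf)
    · exact ⟨c inf, mem_insert _ _, ht⟩
    · exact ⟨c (pt t), mem_insert_of_mem _ ⟨t, ht, rfl⟩, hc _⟩

lemma bdd_of_compact {K : Set X} (hK : IsCompact K) (m : ℕ) :
    ∃ C : ℕ, ∀ t, pt t ∈ K → t m < C := by
  classical
  by_contra H
  push Not at H
  choose u hu hu' using H
  have hsmall : Small (range u) := by
    refine ⟨m + 1, fun c => ((finite_le_nat c).image u).subset ?_⟩
    rintro t ⟨⟨j, rfl⟩, hj⟩
    exact ⟨j, (hu' j).trans ((le_s m _).trans hj), rfl⟩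
  let g : X → ℕ := fun x => match x with
    | inf => 0
    | pt t => if t ∈ range u then t m else 0
  have hg : Continuous g := by
    refine continuous_of_small g (hsmall.mono ?_)
    intro t ht
    by_contra h
    apply ht
    simp only [g, h, if_false]
  have hfin : (g '' K).Finite := (hK.image hg).finite_of_discrete
  obtain ⟨C, hC⟩ := hfin.bddAbove
  have h1 : g (pt (u (C + 1))) ≤ C := hC ⟨_, hu _, rfl⟩
  have h2 : g (pt (u (C + 1))) = u (C + 1) m := by
    simp only [g, mem_range_self, if_true]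
  have := hu' (C + 1)
  omega

lemma not_sigmaCompact : ¬ SigmaCompactSpace X := by
  intro H
  choose C hC using fun m => bdd_of_compact (isCompact_compactCovering X m) m
  obtain ⟨m, hm⟩ := exists_mem_compactCovering (pt C)
  exact lt_irrefl _ (hC m C hm)

/-- The level of a point. -/
def lev (k : ℕ) : X → ℕ
  | inf => 0
  | pt t => s k t

/-- The bound at the point `x` coded by `α`. -/
def bd (α : ℕ → ℕ) (x : X) : ℝ := (α (lev (α 0) x + 1) : ℝ) + 1

lemma continuous_bd (x : X) : Continuous fun α : ℕ → ℕ => bd α x := by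
  have h1 : Continuous fun p : ℕ × (ℕ → ℕ) => p.2 (lev p.1 x + 1) :=
    continuous_prod_of_discrete_left.2 fun k => continuous_apply (lev k x + 1)
  have h2 : Continuous fun α : ℕ → ℕ => α (lev (α 0) x + 1) :=
    h1.comp (f := fun α : ℕ → ℕ => (α 0, α)) ((continuous_apply 0).prodMk continuous_id)
  exact ((continuous_of_discreteTopology (f := fun n : ℕ => (n : ℝ) + 1))).comp h2

/-- Rescaling of a function bounded by one. -/
def Phi (p : (ℕ → ℕ) × (X → ℝ)) : X → ℝ := fun x => bd p.1 x * p.2 x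

lemma continuous_Phi : Continuous Phi :=
  continuous_pi fun x =>
    ((continuous_bd x).comp continuous_fst).mul ((continuous_apply x).comp continuous_snd)

/-- The unit cube. -/
def cube : Set (X → ℝ) := Set.pi univ fun _ => Icc (-1) 1

lemma isCompact_cube : IsCompact cube := isCompact_univ_pi fun _ => isCompact_Icc

/-- The compact-valued map. -/
def F (α : ℕ → ℕ) : Set (X → ℝ) := (fun g => Phi (α, g)) '' cube

lemma isCompact_F (α : ℕ → ℕ) : IsCompact (F α) :=
  isCompact_cube.image (continuous_Phi.comp (Continuous.prodMk_right α))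

lemma usc_F (σ : ℕ → ℕ) (U : Set (X → ℝ)) (hU : IsOpen U) (h : F σ ⊆ U) :
    ∀ᶠ τ in 𝓝 σ, F τ ⊆ U := by
  have := isCompact_cube.eventually_forall_of_forall_eventually (x₀ := σ)
    (P := fun τ g => Phi (τ, g) ∈ U) (fun g hg =>
      continuous_Phi.continuousAt.eventually_mem (hU.mem_nhds (h ⟨g, hg, rfl⟩)))
  refine this.mono ?_
  rintro τ hτ _ ⟨g, hg, rfl⟩
  exact hτ g hg

lemma exists_bd (f : X → ℝ) (hf : Continuous f) : ∃ α, ∀ x, |f x| ≤ bd α x := by
  have hU : IsOpen {x | |f x| < |f inf| + 1} :=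
    isOpen_lt (continuous_abs.comp hf) continuous_const
  obtain ⟨k, hk⟩ := hU (by simp)
  have hb : ∀ m, ∃ c : ℕ, ∀ x, lev k x ≤ m → |f x| ≤ c := by
    intro m
    obtain ⟨C, hC⟩ := ((hk m).image fun t => |f (pt t)|).bddAbove
    obtain ⟨c, hc⟩ := exists_nat_ge (max C (|f inf| + 1))
    refine ⟨c, fun x hx => ?_⟩
    cases x with
    | inf => linarith [le_max_right C (|f inf| + 1)]
    | pt t =>
      by_cases ht : |f (pt t)| < |f inf| + 1
      · linarith [le_max_right C (|f inf| + 1)]
      · have : |f (pt t)| ≤ C := hC ⟨t, ⟨ht, hx⟩, rfl⟩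
        linarith [le_max_left C (|f inf| + 1)]
  choose c hc using hb
  refine ⟨fun n => match n with | 0 => k | m + 1 => c m, fun x => ?_⟩
  have := hc (lev k x) x le_rfl
  simp only [bd]
  linarith

lemma mem_F (f : X → ℝ) (hf : Continuous f) : ∃ α, f ∈ F α := by
  obtain ⟨α, hα⟩ := exists_bd f hf
  have hpos : ∀ x, 0 < bd α x := fun x => by unfold bd; positivity
  refine ⟨α, fun x => f x / bd α x, ?_, ?_⟩
  · intro x _
    rw [mem_Icc, ← abs_le, abs_div, abs_of_pos (hpos x), div_le_one (hpos x)]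
    exact hα x
  · funext x
    have := (hpos x).ne'
    simp only [Phi]
    field_simp

theorem main :
    ¬ (∀ (X : Type) [TopologicalSpace X] [T35Space X] [LindelofSpace X],
      (∃ (Y : Set (X → ℝ)) (F : (ℕ → ℕ) → Set (X → ℝ)),
          {f : X → ℝ | Continuous f} ⊆ Y ∧
          (∀ σ, IsCompact (F σ)) ∧
          (⋃ σ, F σ) = Y ∧
          (∀ (σ : ℕ → ℕ) (U : Set (X → ℝ)), IsOpen U → F σ ⊆ U →
              ∀ᶠ τ in nhds σ, F τ ⊆ U)) →
      SigmaCompactSpace X) := by
  intro H
  exact not_sigmaCompact (H X ⟨⋃ σ, F σ, F, fun f hf => mem_iUnion.2 (mem_F f hf),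
    isCompact_F, rfl, usc_F⟩)

end Pool.Agent.P.MP_750e2a_gt
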