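import Pool.Agent.P.MP_750e2a_gt.NkTree

/-! Every Souslin scheme that covers the trees is met by the labels along one branch. -/

set_option autoImplicit false

open Set

namespace Pool.Agent.P.MP_750e2a_gt.NK

open W

def pre (β : ℕ → ℕ) : ℕ → List ℕ
  | 0 => []
  | k + 1 => pre β k ++ [β k]

theorem pre_succ' (β : ℕ → ℕ) (k : ℕ) : pre β (k + 1) = β 0 :: pre (sh β) k := by
  induction k with
  | zero => rfl
  | succ k ih => rw [pre, ih]; rfl

theorem pre_length (β : ℕ → ℕ) (k : ℕ) : (pre β k).length = k := by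
  induction k with
  | zero => rfl
  | succ k ih => simp [pre, ih]

theorem pre_eq {β γ : ℕ → ℕ} : ∀ k, pre β k = pre γ k → ∀ i < k, β i = γ i := by
  intro k
  induction k with
  | zero => intro _ i hi; omega
  | succ k ih =>
    intro h i hi
    have h1 := List.append_inj' h rfl
    rcases Nat.lt_succ_iff_lt_or_eq.1 hi with h2 | h2
    · exact ih h1.1 i h2
    · rw [h2]; simpa using h1.2

/-- Two trees have the same labels along `β`, the same subtrees left of `β` and the same leaf on `β`. -/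
def Same : W → W → (ℕ → ℕ) → Prop
  | leaf, s, _ => s = leaf
  | node l f, s, β => ∃ f', s = node l f' ∧ (∀ m < β 0, f' m = f m) ∧ Same (f (β 0)) (f' (β 0)) (sh β)

theorem same_refl : ∀ (g : W) (β : ℕ → ℕ), Same g g β := by
  intro g
  induction g with
  | leaf => intro β; rfl
  | node l f _ ih => intro β; exact ⟨f, rfl, fun _ _ => rfl, ih _ _⟩

def Closable (E : Set (W × W)) (D : List ℕ → Set W) : Prop :=
  ∃ g, ∀ β t s, (t, s) ∈ E → Same g s β → t ∉ D (pre β (lev g β))

def child (E : Set (W × W)) (l : W) (f : ℕ → W) (n : ℕ) : Set (W × W) :=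
  {p | ∃ f', (p.1, node l f') ∈ E ∧ (∀ m < n, f' m = f m) ∧ p.2 = f' n}

theorem step {E : Set (W × W)} {D : List ℕ → Set W} (h : ¬ Closable E D) :
    ∃ l f n, (l, leaf) ∈ E ∧ l ∈ D [] ∧ ¬ Closable (child E l f n) (fun v => D (n :: v)) := by
  obtain ⟨l, hl, hD⟩ : ∃ l, (l, leaf) ∈ E ∧ l ∈ D [] := by
    by_contra hc
    refine h ⟨leaf, fun β t s hts hs ht => hc ⟨t, ?_, ht⟩⟩
    have : s = leaf := hs
    rwa [this] at hts
  by_contra hc
  have hc' : ∀ f n, Closable (child E l f n) (fun v => D (n :: v)) := fun f n => by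
    by_contra h'
    exact hc ⟨l, f, n, hl, hD, h'⟩
  choose c hcl using hc'
  let G : ℕ → ℕ → W := fun n => Nat.rec (fun _ => leaf) (fun k g => Function.update g k (c g k)) n
  have hG : ∀ n, G (n + 1) = Function.update (G n) n (c (G n) n) := fun _ => rfl
  have hF : ∀ n, ∀ m < n, G n m = c (G m) m := by
    intro n
    induction n with
    | zero => intro m hm; omega
    | succ n ih =>
      intro m hm
      rw [hG]
      rcases Nat.lt_succ_iff_lt_or_eq.1 hm with h2 | h2
      · rw [Function.update_of_ne h2.ne, ih m h2]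
      · rw [h2, Function.update_self]
  refine h ⟨node l fun n => c (G n) n, fun β t s hts hs => ?_⟩
  obtain ⟨f', rfl, h1, h2⟩ := hs
  have := hcl (G (β 0)) (β 0) (sh β) t (f' (β 0))
    ⟨f', hts, fun m hm => (h1 m hm).trans (hF _ m hm).symm, rfl⟩ h2
  rw [lev, pre_succ']
  exact this

/-- The code of the infinite tree with labels `l` along `σ` and subtrees `f` to the left. -/
def lim (σ : ℕ → ℕ) (l : ℕ → W) (f : ℕ → ℕ → W) : I → ℕ → Bool
  | [], _ => true
  | none :: p, j => code (l j) p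
  | some m :: p, j => if m < σ j then code (f j m) p else lim σ l f p (j + 1)

theorem sub_lim (σ : ℕ → ℕ) (l : ℕ → W) (f : ℕ → ℕ → W) (j : ℕ) :
    sub σ j (fun p => lim σ l f p 0) = fun p => lim σ l f p j := by
  induction j with
  | zero => rfl
  | succ j ih => rw [sub, ih]; funext p; simp [ch, lim]

theorem exists_branch (D : List ℕ → Set W) (hD : ∀ t, ∃ σ, ∀ k, t ∈ D (pre σ k)) :
    ∃ (σ : ℕ → ℕ) (ξ : L) (l : ℕ → W), ∀ j, l j ∈ D (pre σ j) ∧ l j ∈ S ξ σ ∧ lev (l j) σ = j := by
  have h0 : ¬ Closable {p | p.1 = p.2} D := by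
    rintro ⟨g, hg⟩
    obtain ⟨σ, hσ⟩ := hD g
    exact hg σ g g rfl (same_refl g σ) (hσ _)
  let St := {p : Set (W × W) × (List ℕ → Set W) // ¬ Closable p.1 p.2}
  choose l f n hE hl hn using fun p : St => step p.2
  let q : ℕ → St := fun j => Nat.rec ⟨({p | p.1 = p.2}, D), h0⟩
    (fun _ p => ⟨(child p.1.1 (l p) (f p) (n p), fun v => p.1.2 (n p :: v)), hn p⟩) j
  let σ : ℕ → ℕ := fun j => n (q j)
  have hq2 : ∀ j v, (q j).1.2 v = D (pre σ j ++ v) := by
    intro j
    induction j with
    | zero => intro v; rfl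
    | succ j ih =>
      intro v
      have : (q (j + 1)).1.2 v = (q j).1.2 (σ j :: v) := rfl
      rw [this, ih, pre, List.append_assoc]; rfl
  let ξ : L := fun p => lim σ (fun j => l (q j)) (fun j => f (q j)) p 0
  have hq1 : ∀ j t s, (t, s) ∈ (q j).1.1 →
      sub σ j (code t) = code s ∧ ∀ i < j, Ag σ i (code t) ξ := by
    intro j
    induction j with
    | zero =>
      intro t s h
      have : t = s := h
      exact ⟨by rw [this]; rfl, fun i hi => by omega⟩
    | succ j ih =>
      intro t s h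
      obtain ⟨f', h1, h2, h3⟩ : (t, s) ∈ child (q j).1.1 (l (q j)) (f (q j)) (σ j) := h
      obtain ⟨h4, h5⟩ := ih t _ h1
      have h3' : s = f' (σ j) := h3
      refine ⟨by rw [sub, h4, h3']; funext p; simp [ch, code], fun i hi => ?_⟩
      rcases Nat.lt_succ_iff_lt_or_eq.1 hi with h6 | h6
      · exact h5 i h6
      · rw [h6]
        unfold Ag
        rw [h4, sub_lim]
        refine ⟨by simp [code, lim], by funext p; simp [lb, code, lim], fun m hm => ?_⟩
        funext p
        simp [ch, code, lim, hm, h2 m hm]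
  refine ⟨σ, ξ, fun j => l (q j), fun j => ?_⟩
  obtain ⟨h1, h2⟩ := hq1 j _ _ (hE (q j))
  have hlev : lev (l (q j)) σ = j := by
    have h3 : ¬ j < lev (l (q j)) σ := by rw [← lt_lev, h1]; simp [code]
    by_contra hne
    have h4 : lev (l (q j)) σ < j := by omega
    have h5 := (h2 _ h4).1
    rw [sub_lim] at h5
    have h6 := (lt_lev _ _ _).1 (h5.trans (by simp [lim]))
    omega
  refine ⟨by simpa [hq2] using hl (q j), ?_, hlev⟩
  show Fit (lev (l (q j)) σ) σ (l (q j)) ξ
  rw [hlev]
  refine ⟨h2, by rw [sub_lim]; simp [lim], ?_⟩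
  rw [sub_lim]; funext p; simp [lb, lim]

end Pool.Agent.P.MP_750e2a_gt.NK
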