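import Pool.Agent.P.MP_750e2a_gt.NkSpace

/-! The continuous functions form the image of an upper semicontinuous compact-valued map. -/

set_option autoImplicit false

open Set Filter Topology

namespace Pool.Agent.P.MP_750e2a_gt.NK

open X

/-- The points on one of finitely many removed sets. -/
def Bad (m : ℕ) (b : ℕ → ℕ → ℕ) (Ξ : ℕ → L) (x : X) : Prop :=
  ∃ i < m, ∃ t, (t ∈ S (Ξ i) (b i) ∨ code t = Ξ i) ∧ x = pt t

abbrev Par : Type := ((ℕ → ℕ → ℕ) × (X → ℝ)) × (ℕ → L)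

theorem isClosed_Bad (m : ℕ) (x : X) : IsClosed {p : Par | Bad m p.1.1 p.2 x} := by
  cases x with
  | cpt η =>
    have : {p : Par | Bad m p.1.1 p.2 (cpt η)} = ∅ := by
      ext p; simp [Bad]
    rw [this]; exact isClosed_empty
  | pt u =>
    have : {p : Par | Bad m p.1.1 p.2 (pt u)} = ⋃ i ∈ Iio m,
        ((fun p : Par => (p.2 i, p.1.1 i)) ⁻¹' {q : L × (ℕ → ℕ) | u ∈ S q.1 q.2} ∪
          {p : Par | code u = p.2 i}) := by
      ext p
      simp only [Bad, mem_ofPred_eq, mem_iUnion, mem_Iio, exists_prop, mem_union, mem_preimage]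
      constructor
      · rintro ⟨i, hi, t, ht, h⟩
        obtain rfl : u = t := by simpa using h
        exact ⟨i, hi, ht⟩
      · rintro ⟨i, hi, h⟩
        exact ⟨i, hi, u, h, rfl⟩
    rw [this]
    have h2 : ∀ i, Continuous fun p : Par => p.2 i := fun i =>
      (continuous_apply i).comp continuous_snd
    exact (finite_Iio m).isClosed_biUnion fun i _ =>
      ((isClosed_S u).preimage ((h2 i).prodMk
        ((continuous_apply i).comp (continuous_fst.comp continuous_fst)))).union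
        (isClosed_eq continuous_const (h2 i))

def Osc (j m : ℕ) : Set Par :=
  {p | ∀ x y, E x ∈ Cyl (E y) m →
    Bad m p.1.1 p.2 x ∨ Bad m p.1.1 p.2 y ∨ |p.1.2 x - p.1.2 y| ≤ 1 / ((j : ℝ) + 1)}

theorem isClosed_Osc (j m : ℕ) : IsClosed (Osc j m) := by
  have : Osc j m = ⋂ x, ⋂ y, ⋂ _ : E x ∈ Cyl (E y) m,
      ({p : Par | Bad m p.1.1 p.2 x} ∪ ({p : Par | Bad m p.1.1 p.2 y} ∪
        {p : Par | |p.1.2 x - p.1.2 y| ≤ 1 / ((j : ℝ) + 1)})) := by
    ext p; simp [Osc]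
  rw [this]
  refine isClosed_iInter fun x => isClosed_iInter fun y => isClosed_iInter fun _ =>
    (isClosed_Bad m x).union ((isClosed_Bad m y).union (isClosed_le ?_ continuous_const))
  exact (((continuous_apply x).comp (continuous_snd.comp continuous_fst)).sub
    ((continuous_apply y).comp (continuous_snd.comp continuous_fst))).abs

def A (j m : ℕ) : Set ((ℕ → ℕ → ℕ) × (X → ℝ)) := Prod.fst '' Osc j m

theorem isClosed_A (j m : ℕ) : IsClosed (A j m) :=
  isClosedMap_fst_of_compactSpace _ (isClosed_Osc j m)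

theorem continuous_of_A {f : X → ℝ} (h : ∀ j, ∃ m b, (b, f) ∈ A j m) : Continuous f := by
  refine continuous_iff_continuousAt.2 fun x => ?_
  cases x with
  | pt t =>
    unfold ContinuousAt
    rw [(isOpen_singleton_iff_nhds_eq_pure _).1 (isClopen_pt t).2]
    exact tendsto_pure_nhds f _
  | cpt ξ =>
    refine Metric.tendsto_nhds.2 fun ε hε => ?_
    obtain ⟨j, hj⟩ := exists_nat_one_div_lt hε
    obtain ⟨m, b, ⟨g, Ξ⟩, hp, rfl⟩ := h j
    choose c hc using fun i : ℕ => avoid_both (Ξ i) (b i) ξ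
    obtain ⟨k, hk⟩ := ((finite_Iio m).image c).bddAbove
    filter_upwards [(hasBasis_cpt ξ).mem_of_mem (i := max m k) trivial] with x hx
    rcases hp x (cpt ξ) (N_anti ξ (le_max_left _ _) hx).1 with hb | hb | hb
    · obtain ⟨i, hi, t, ht, rfl⟩ := hb
      exact absurd (N_anti ξ ((hk ⟨i, hi, rfl⟩).trans (le_max_right _ _)) hx) (hc i t ht)
    · obtain ⟨i, _, t, _, h⟩ := hb
      simp at h
    · exact lt_of_le_of_lt hb hj

theorem exists_A {f : X → ℝ} (hf : Continuous f) (j : ℕ) : ∃ m b, (b, f) ∈ A j m := by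
  have hε : (0 : ℝ) < 1 / ((j : ℝ) + 1) / 2 := by positivity
  have hU : ∀ ξ, IsOpen {x | |f x - f (cpt ξ)| < 1 / ((j : ℝ) + 1) / 2} := fun ξ =>
    isOpen_lt (hf.sub continuous_const).abs continuous_const
  choose k hk using fun ξ => hU ξ ξ (by simpa using hε)
  obtain ⟨T, h1, -⟩ := cover k
  obtain ⟨m, hm⟩ := (T.finite_toSet.image k).bddAbove
  obtain ⟨n0, Ξ0, hΞ0⟩ : ∃ (n0 : ℕ) (Ξ0 : ℕ → L), ∀ ξ ∈ T, ∃ i < n0, Ξ0 i = ξ := by
    refine ⟨T.toList.length, fun i => T.toList.getD i (fun _ => false), fun ξ hξ => ?_⟩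
    obtain ⟨i, hi, h⟩ := List.getElem_of_mem (Finset.mem_toList.2 hξ)
    exact ⟨i, hi, by rw [← h]; exact (List.getElem_eq_getD _).symm⟩
  choose β hβ using exists_R
  refine ⟨max m n0, fun i => β (Ξ0 i), ((fun i => β (Ξ0 i), f), Ξ0), fun x y hxy => ?_, rfl⟩
  by_contra hc
  push Not at hc
  obtain ⟨hx, hy, hlt⟩ := hc
  obtain ⟨ξ, hξ, hyξ⟩ := h1 (E y)
  have hkm : k ξ ≤ max m n0 := (hm ⟨ξ, hξ, rfl⟩).trans (le_max_left _ _)
  obtain ⟨i, hi, rfl⟩ := hΞ0 ξ hξ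
  have hi' : i < max m n0 := hi.trans_le (le_max_right _ _)
  have hy' : y ∈ N (Ξ0 i) (k (Ξ0 i)) :=
    ⟨hyξ.1, fun t ht h => hy ⟨i, hi', t, ht.imp_left fun h' => hβ _ h', h⟩⟩
  have hx' : x ∈ N (Ξ0 i) (k (Ξ0 i)) :=
    ⟨fun a ha => (hxy a (ha.trans_le hkm)).trans (hyξ.1 a ha),
      fun t ht h => hx ⟨i, hi', t, ht.imp_left fun h' => hβ _ h', h⟩⟩
  have e1 := abs_lt.1 (show |f x - f (cpt (Ξ0 i))| < 1 / ((j : ℝ) + 1) / 2 from hk _ hx')
  have e2 := abs_lt.1 (show |f y - f (cpt (Ξ0 i))| < 1 / ((j : ℝ) + 1) / 2 from hk _ hy')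
  refine absurd hlt (not_lt.2 (abs_le.2 ⟨?_, ?_⟩)) <;> dsimp only <;> linarith [e1.1, e1.2, e2.1, e2.2]

/-- The `r`-th sequence coded by `σ`. -/
def row (r : ℕ) (σ : ℕ → ℕ) : ℕ → ℕ := fun n => σ (Nat.pair r n)

theorem continuous_row (r : ℕ) : Continuous (row r) := continuous_pi fun _ => continuous_apply _

def brs (j : ℕ) (σ : ℕ → ℕ) : ℕ → ℕ → ℕ := fun i => row (Nat.pair j i + 2) σ

theorem continuous_brs (j : ℕ) : Continuous (brs j) := continuous_pi fun _ => continuous_row _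

def Gr : Set ((ℕ → ℕ) × (X → ℝ)) := {p | ∀ j, (brs j p.1, p.2) ∈ A j (row 1 p.1 j)}

theorem isClosed_Gr : IsClosed Gr := by
  have : Gr = ⋂ j, ⋂ m, ({p : (ℕ → ℕ) × (X → ℝ) | row 1 p.1 j = m}ᶜ ∪
      (fun p : (ℕ → ℕ) × (X → ℝ) => (brs j p.1, p.2)) ⁻¹' A j m) := by
    ext p
    simp only [Gr, mem_ofPred_eq, mem_iInter, mem_union, mem_compl_iff, mem_preimage]
    refine forall_congr' fun j => ⟨fun h m => ?_, fun h => (h _).resolve_left (by simp)⟩
    by_cases hm : row 1 p.1 j = m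
    · exact Or.inr (hm ▸ h)
    · exact Or.inl hm
  rw [this]
  refine isClosed_iInter fun j => isClosed_iInter fun m => IsClosed.union ?_
    ((isClosed_A j m).preimage (((continuous_brs j).comp continuous_fst).prodMk continuous_snd))
  have hc : Continuous fun p : (ℕ → ℕ) × (X → ℝ) => row 1 p.1 j :=
    (continuous_apply j).comp ((continuous_row 1).comp continuous_fst)
  exact ((isOpen_discrete ({m} : Set ℕ)).preimage hc).isClosed_compl

def K (σ : ℕ → ℕ) : Set (X → ℝ) := F (row 0 σ) ∩ {f | (σ, f) ∈ Gr}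

theorem isCompact_K (σ : ℕ → ℕ) : IsCompact (K σ) :=
  (isCompact_F _).inter_right (isClosed_Gr.preimage (Continuous.prodMk_right σ))

theorem exists_rows (G : ℕ → ℕ → ℕ) : ∃ σ, ∀ r, row r σ = G r :=
  ⟨fun n => G (Nat.unpair n).1 (Nat.unpair n).2, fun r => funext fun n => by simp [row]⟩

theorem iUnion_K : (⋃ σ, K σ) = {f : X → ℝ | Continuous f} := by
  ext f
  simp only [mem_iUnion, mem_ofPred_eq]
  refine ⟨fun ⟨σ, hσ⟩ => continuous_of_A fun j => ⟨_, _, hσ.2 j⟩, fun hf => ?_⟩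
  obtain ⟨α, hα⟩ := mem_F f hf
  choose γ b hγ using exists_A hf
  obtain ⟨σ, hσ⟩ := exists_rows fun r => match r with
    | 0 => α
    | 1 => γ
    | r + 2 => b (Nat.unpair r).1 (Nat.unpair r).2
  refine ⟨σ, by rw [hσ]; exact hα, fun j => ?_⟩
  have h1 : brs j σ = b j := funext fun i => by simp [brs, hσ]
  have h2 : row 1 σ = γ := hσ 1
  show (brs j σ, f) ∈ A j (row 1 σ j)
  rw [h1, h2]
  exact hγ j

theorem usc_K (σ : ℕ → ℕ) (U : Set (X → ℝ)) (hU : IsOpen U) (h : K σ ⊆ U) :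
    ∀ᶠ τ in 𝓝 σ, K τ ⊆ U := by
  have hc : Continuous fun p : (ℕ → ℕ) × (X → ℝ) => (p.1, Phi (row 0 p.1, p.2)) :=
    continuous_fst.prodMk
      (continuous_Phi.comp (((continuous_row 0).comp continuous_fst).prodMk continuous_snd))
  have hO : IsOpen (Grᶜ ∪ Prod.snd ⁻¹' U) :=
    isClosed_Gr.isOpen_compl.union (hU.preimage continuous_snd)
  have := isCompact_cube.eventually_forall_of_forall_eventually (x₀ := σ)
    (P := fun τ g => (τ, Phi (row 0 τ, g)) ∈ Grᶜ ∪ Prod.snd ⁻¹' U) (fun g hg =>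
      hc.continuousAt.eventually_mem (hO.mem_nhds (by
        by_cases hg' : (σ, Phi (row 0 σ, g)) ∈ Gr
        · exact Or.inr (h ⟨⟨g, hg, rfl⟩, hg'⟩)
        · exact Or.inl hg')))
  refine this.mono ?_
  rintro τ hτ _ ⟨⟨g, hg, rfl⟩, hG⟩
  exact (hτ g hg).resolve_left fun h => h hG

end Pool.Agent.P.MP_750e2a_gt.NK
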