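import Pool.Agent.P.MP_750e2a_gt.NkBranch

/-! A space that holds the trees with all label sequences closed and discrete is not K-analytic. -/

set_option autoImplicit false

open Set Filter Topology

namespace Pool.Agent.P.MP_750e2a_gt.NK

theorem not_kanalytic {X : Type} [TopologicalSpace X] (pt : W → X) (hinj : Function.Injective pt)
    (hcl : ∀ ξ β A, A ⊆ S ξ β → IsClosed (pt '' A)) :
    ¬ ∃ G : (ℕ → ℕ) → Set X, (∀ σ, IsCompact (G σ)) ∧ (⋃ σ, G σ) = univ ∧
      ∀ (σ : ℕ → ℕ) (U : Set X), IsOpen U → G σ ⊆ U → ∀ᶠ τ in nhds σ, G τ ⊆ U := by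
  rintro ⟨G, hc, hu, husc⟩
  obtain ⟨σ, ξ, l, hl⟩ := exists_branch (fun v => {t | ∃ τ, pre τ v.length = v ∧ pt t ∈ G τ})
    (fun t => by
      obtain ⟨σ, hσ⟩ := mem_iUnion.1 (hu.symm ▸ mem_univ (pt t))
      exact ⟨σ, fun k => ⟨σ, by rw [pre_length], hσ⟩⟩)
  choose τ hτ hG using fun j => (hl j).1
  have hlim : Tendsto τ atTop (𝓝 σ) := by
    refine tendsto_pi_nhds.2 fun i => tendsto_const_nhds.congr' ?_
    filter_upwards [eventually_gt_atTop i] with j hj
    have := hτ j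
    rw [pre_length] at this
    exact (pre_eq j this i hj).symm
  have hC : ∀ m, IsClosed (pt '' (l '' Ici m)) := fun m => hcl ξ σ _ (by
    rintro _ ⟨j, _, rfl⟩; exact (hl j).2.1)
  obtain ⟨m, hm⟩ := (hc σ).elim_directed_family_closed (fun m => pt '' (l '' Ici m)) hC (by
      refine disjoint_iff_inter_eq_empty.1 (disjoint_left.2 fun x _ hx => ?_)
      obtain ⟨_, ⟨j, _, rfl⟩, hj⟩ := mem_iInter.1 hx 0
      obtain ⟨_, ⟨k, hk, rfl⟩, hk'⟩ := mem_iInter.1 hx (j + 1)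
      have h1 : l k = l j := hinj (hk'.trans hj.symm)
      have h2 := (hl k).2.2
      rw [h1, (hl j).2.2] at h2
      have h3 : j + 1 ≤ k := hk
      omega)
    (fun a b => ⟨max a b, image_mono (image_mono (Ici_subset_Ici.2 (le_max_left _ _))),
      image_mono (image_mono (Ici_subset_Ici.2 (le_max_right _ _)))⟩)
  have h1 := hlim.eventually (husc σ _ (hC m).isOpen_compl (disjoint_left.1 (disjoint_iff_inter_eq_empty.2 hm)))
  obtain ⟨j, hj, hjm⟩ := (h1.and (eventually_ge_atTop m)).exists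
  exact hj (hG j) ⟨l j, ⟨j, hjm, rfl⟩, rfl⟩

/-- A sigma-compact space is K-analytic. -/
theorem kanalytic_of_sigmaCompact {X : Type} [TopologicalSpace X] [SigmaCompactSpace X] :
    ∃ G : (ℕ → ℕ) → Set X, (∀ σ, IsCompact (G σ)) ∧ (⋃ σ, G σ) = univ ∧
      ∀ (σ : ℕ → ℕ) (U : Set X), IsOpen U → G σ ⊆ U → ∀ᶠ τ in nhds σ, G τ ⊆ U := by
  refine ⟨fun σ => compactCovering X (σ 0), fun σ => isCompact_compactCovering X _, ?_, ?_⟩
  · refine eq_univ_of_forall fun x => ?_
    obtain ⟨n, hn⟩ := exists_mem_compactCovering x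
    exact mem_iUnion.2 ⟨fun _ => n, hn⟩
  · intro σ U _ h
    have : ∀ᶠ τ in nhds σ, τ 0 = σ 0 := (continuous_apply 0).continuousAt.eventually_mem
      ((isOpen_discrete ({σ 0} : Set ℕ)).mem_nhds rfl)
    exact this.mono fun τ hτ => by simpa only [hτ] using h

end Pool.Agent.P.MP_750e2a_gt.NK
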