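import Pool.Agent.P.MP_750e2a_gt.NkTree

/-! A first countable Lindelöf space: the labelled trees are isolated, the Cantor cube is the set of limits. -/

set_option autoImplicit false

open Set Filter Topology

namespace Pool.Agent.P.MP_750e2a_gt.NK

inductive X : Type
  | pt : W → X
  | cpt : L → X

open X

def E : X → L
  | pt t => code t
  | cpt ξ => ξ

def Cyl (ξ : L) (k : ℕ) : Set L := {η | ∀ i : I, Encodable.encode i < k → η i = ξ i}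

theorem isOpen_Cyl (ξ : L) (k : ℕ) : IsOpen (Cyl ξ k) := by
  have hfin : {i : I | Encodable.encode i < k}.Finite :=
    (finite_lt_nat k).preimage Encodable.encode_injective.injOn
  have : Cyl ξ k = ⋂ i ∈ {i : I | Encodable.encode i < k}, (fun η : L => η i) ⁻¹' {ξ i} := by
    ext η; simp [Cyl]
  rw [this]
  exact hfin.isOpen_biInter fun i _ => (isOpen_discrete _).preimage (continuous_apply i)

theorem exists_Cyl {η : L} {U : Set L} (hU : U ∈ 𝓝 η) : ∃ k, Cyl η k ⊆ U := by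
  rw [nhds_pi, Filter.mem_pi] at hU
  obtain ⟨J, hJ, t, ht, hsub⟩ := hU
  obtain ⟨k, hk⟩ := (hJ.image Encodable.encode).bddAbove
  refine ⟨k + 1, fun ζ hζ => hsub fun i hi => ?_⟩
  rw [hζ i (Nat.lt_succ_of_le (hk ⟨i, hi, rfl⟩))]
  exact mem_of_mem_nhds (ht i)

/-- Basic neighbourhoods of a limit point. -/
def N (ξ : L) (k : ℕ) : Set X := {x | E x ∈ Cyl ξ k ∧ ∀ t, t ∈ R ξ ∨ code t = ξ → x ≠ pt t}

theorem N_anti (ξ : L) {k m : ℕ} (h : k ≤ m) : N ξ m ⊆ N ξ k :=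
  fun _ hx => ⟨fun i hi => hx.1 i (hi.trans_le h), hx.2⟩

theorem cpt_mem_N {ξ η : L} {k : ℕ} : cpt η ∈ N ξ k ↔ η ∈ Cyl ξ k :=
  ⟨fun h => h.1, fun h => ⟨h, fun _ _ => by simp⟩⟩

theorem self_mem_N (ξ : L) (k : ℕ) : cpt ξ ∈ N ξ k := cpt_mem_N.2 fun _ _ => rfl

instance : TopologicalSpace X where
  IsOpen U := ∀ ξ, cpt ξ ∈ U → ∃ k, N ξ k ⊆ U
  isOpen_univ := fun _ _ => ⟨0, subset_univ _⟩
  isOpen_inter U V hU hV ξ h := by
    obtain ⟨k, hk⟩ := hU ξ h.1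
    obtain ⟨m, hm⟩ := hV ξ h.2
    exact ⟨max k m, subset_inter ((N_anti ξ (le_max_left _ _)).trans hk)
      ((N_anti ξ (le_max_right _ _)).trans hm)⟩
  isOpen_sUnion T hT ξ h := by
    obtain ⟨U, hUT, hU⟩ := h
    obtain ⟨k, hk⟩ := hT U hUT ξ hU
    exact ⟨k, hk.trans (subset_sUnion_of_mem hUT)⟩

theorem isOpen_iff (U : Set X) : IsOpen U ↔ ∀ ξ, cpt ξ ∈ U → ∃ k, N ξ k ⊆ U := Iff.rfl

theorem avoid_pt (ξ : L) (t : W) : ∃ k, pt t ∉ N ξ k := by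
  by_cases h : code t = ξ
  · exact ⟨0, fun hx => hx.2 t (Or.inr h) rfl⟩
  · obtain ⟨i, hi⟩ := Function.ne_iff.1 h
    exact ⟨Encodable.encode i + 1, fun hx => hi (hx.1 i (Nat.lt_succ_self _))⟩

theorem avoid_fin (ξ : L) {T : Set W} (hT : T.Finite) : ∃ k, ∀ t ∈ T, pt t ∉ N ξ k := by
  choose c hc using avoid_pt ξ
  obtain ⟨k, hk⟩ := (hT.image c).bddAbove
  exact ⟨k, fun t ht hx => hc t (N_anti ξ (hk ⟨t, ht, rfl⟩) hx)⟩

theorem avoid_S (ξ : L) (β : ℕ → ℕ) (η : L) : ∃ k, ∀ t ∈ S ξ β, pt t ∉ N η k := by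
  by_cases hf : (S ξ β).Finite
  · exact avoid_fin η hf
  by_cases h : ∀ j, Ag β j ξ η
  · exact ⟨0, fun t ht hx =>
      hx.2 t (Or.inl ⟨β, Set.Infinite.mono (S_eq h) hf, S_eq h ht⟩) rfl⟩
  · push Not at h
    obtain ⟨j, hj⟩ := h
    obtain ⟨k0, hk0⟩ := exists_Cyl ((isClosed_Ag β j ξ).isOpen_compl.mem_nhds hj)
    obtain ⟨k, hk⟩ := avoid_fin η (S_fin ξ β j)
    refine ⟨max k k0, fun t ht hx => ?_⟩
    by_cases hd : lev t β ≤ j
    · exact hk t ⟨ht, hd⟩ (N_anti η (le_max_left _ _) hx)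
    · exact hk0 (N_anti η (le_max_right _ _) hx).1 (ht.1 j (by omega)).symm

/-- Every limit point has a basic neighbourhood that misses one sequence of labels and one code. -/
theorem avoid_both (ξ : L) (β : ℕ → ℕ) (η : L) :
    ∃ k, ∀ t, t ∈ S ξ β ∨ code t = ξ → pt t ∉ N η k := by
  obtain ⟨k, hk⟩ := avoid_S ξ β η
  obtain ⟨m, hm⟩ := avoid_fin η (fin_code ξ)
  exact ⟨max k m, fun t ht hx => ht.elim (fun h => hk t h (N_anti η (le_max_left _ _) hx))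
    (fun h => hm t h (N_anti η (le_max_right _ _) hx))⟩

theorem isOpen_N (ξ : L) (k : ℕ) : IsOpen (N ξ k) := by
  intro η hη
  obtain ⟨β, hβ⟩ := exists_R ξ
  obtain ⟨m, hm⟩ := avoid_both ξ β η
  refine ⟨max k m, fun x hx => ⟨fun i hi => ?_, fun t ht hxt => ?_⟩⟩
  · exact (hx.1 i (hi.trans_le (le_max_left _ _))).trans (hη.1 i hi)
  · exact hm t (ht.imp_left fun h => hβ h) (hxt ▸ N_anti η (le_max_right _ _) hx)

theorem isClopen_N (ξ : L) (k : ℕ) : IsClopen (N ξ k) := by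
  refine ⟨⟨fun η hη => ⟨k, fun x hx hx' => hη (cpt_mem_N.2 fun i hi => ?_)⟩⟩, isOpen_N ξ k⟩
  exact (hx.1 i hi).symm.trans (hx'.1 i hi)

theorem isClopen_pt (t : W) : IsClopen ({pt t} : Set X) := by
  refine ⟨⟨fun η _ => ?_⟩, fun η hη => by simp at hη⟩
  obtain ⟨k, hk⟩ := avoid_pt η t
  exact ⟨k, fun x hx hxt => hk (mem_singleton_iff.1 hxt ▸ hx)⟩

theorem hasBasis_cpt (ξ : L) : (𝓝 (cpt ξ)).HasBasis (fun _ => True) (N ξ) := by
  refine ⟨fun U => ⟨fun hU => ?_, fun ⟨k, _, hk⟩ =>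
    mem_of_superset ((isOpen_N ξ k).mem_nhds (self_mem_N ξ k)) hk⟩⟩
  obtain ⟨V, hVU, hV, hx⟩ := mem_nhds_iff.1 hU
  obtain ⟨k, hk⟩ := hV ξ hx
  exact ⟨k, trivial, hk.trans hVU⟩

instance : FirstCountableTopology X := by
  refine ⟨fun x => ?_⟩
  cases x with
  | pt t =>
    rw [(isOpen_singleton_iff_nhds_eq_pure _).1 (isClopen_pt t).2]
    infer_instance
  | cpt ξ => exact HasCountableBasis.isCountablyGenerated ⟨hasBasis_cpt ξ, to_countable _⟩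

instance : T0Space X := by
  refine (t0Space_iff_exists_isOpen_xor_mem X).2 ?_
  intro x y hxy
  cases x with
  | pt t => exact ⟨{pt t}, (isClopen_pt t).2, Or.inl ⟨rfl, fun h => hxy h.symm⟩⟩
  | cpt ξ =>
    cases y with
    | pt t => exact ⟨{pt t}, (isClopen_pt t).2, Or.inr ⟨rfl, by simp⟩⟩
    | cpt η =>
      have h : η ≠ ξ := fun h => hxy (by rw [h])
      obtain ⟨i, hi⟩ := Function.ne_iff.1 h
      exact ⟨N ξ (Encodable.encode i + 1), isOpen_N _ _,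
        Or.inl ⟨self_mem_N _ _, fun hx => hi (hx.1 i (Nat.lt_succ_self _))⟩⟩

instance : CompletelyRegularSpace X := by
  refine CompletelyRegularSpace.of_isTopologicalBasis_clopens
    (TopologicalSpace.isTopologicalBasis_of_isOpen_of_nhds (fun _ hU => hU.2) ?_)
  intro x U hx hU
  cases x with
  | pt t => exact ⟨{pt t}, isClopen_pt t, rfl, singleton_subset_iff.2 hx⟩
  | cpt ξ =>
    obtain ⟨k, hk⟩ := hU ξ hx
    exact ⟨N ξ k, isClopen_N ξ k, self_mem_N ξ k, hk⟩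

instance : T35Space X where

theorem cover (k : L → ℕ) : ∃ Ξ : Finset L, (∀ η, ∃ ξ ∈ Ξ, cpt η ∈ N ξ (k ξ)) ∧
    Small {t | ∀ ξ ∈ Ξ, pt t ∉ N ξ (k ξ)} := by
  obtain ⟨Ξ, hΞ⟩ := isCompact_univ.elim_finite_subcover (fun ξ : L => Cyl ξ (k ξ))
    (fun ξ => isOpen_Cyl ξ _) (fun η _ => mem_iUnion.2 ⟨η, fun _ _ => rfl⟩)
  have h : ∀ η, ∃ ξ ∈ Ξ, η ∈ Cyl ξ (k ξ) := fun η => by simpa using hΞ (mem_univ η)
  refine ⟨Ξ, fun η => (h η).imp fun ξ hξ => ⟨hξ.1, cpt_mem_N.2 hξ.2⟩, ?_⟩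
  choose β hβ using exists_R
  refine (small_biUnion Ξ (fun ξ => S ξ (β ξ) ∪ {t | code t = ξ})
    fun ξ => (small_S ξ _).union (small_fin (fin_code ξ))).mono ?_
  intro t ht
  obtain ⟨ξ, hξ, hc⟩ := h (code t)
  by_contra hn
  refine ht ξ hξ ⟨hc, fun u hu htu => hn ?_⟩
  obtain rfl : t = u := by simpa using htu
  simp only [mem_iUnion]
  exact ⟨ξ, hξ, hu.imp_left fun h => hβ ξ h⟩

instance : LindelofSpace X := by
  refine ⟨isLindelof_of_countable_subcover ?_⟩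
  intro ι U hU hcov
  have hc : ∀ x : X, ∃ i, x ∈ U i := fun x => mem_iUnion.1 (hcov (mem_univ x))
  choose c hc using hc
  choose k hk using fun ξ => hU (c (cpt ξ)) ξ (hc _)
  obtain ⟨Ξ, h1, h2⟩ := cover k
  refine ⟨(fun ξ => c (cpt ξ)) '' Ξ ∪ (fun t => c (pt t)) '' {t | ∀ ξ ∈ Ξ, pt t ∉ N ξ (k ξ)},
    (Ξ.countable_toSet.image _).union (h2.1.image _), ?_⟩
  intro x _
  simp only [mem_iUnion]
  by_cases hx : ∃ ξ ∈ Ξ, x ∈ N ξ (k ξ)
  · obtain ⟨ξ, hξ, hx⟩ := hx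
    exact ⟨c (cpt ξ), Or.inl ⟨ξ, hξ, rfl⟩, hk ξ hx⟩
  · cases x with
    | cpt η => exact absurd (h1 η) hx
    | pt t => exact ⟨c (pt t), Or.inr ⟨t, fun ξ hξ h => hx ⟨ξ, hξ, h⟩, rfl⟩, hc _⟩

theorem fin_of_compact {K : Set X} (hK : IsCompact K) (η : L) (β : ℕ → ℕ) :
    {t | pt t ∈ K ∧ t ∈ S η β}.Finite := by
  refine hK.induction_on (p := fun K => {t | pt t ∈ K ∧ t ∈ S η β}.Finite) (by simp)
    (fun A T hAT hT => hT.subset fun t ht => ⟨hAT ht.1, ht.2⟩)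
    (fun A T hA hT => (hA.union hT).subset fun t ht =>
      ht.1.elim (fun h => Or.inl ⟨h, ht.2⟩) (fun h => Or.inr ⟨h, ht.2⟩)) ?_
  intro x _
  cases x with
  | pt u =>
    refine ⟨{pt u}, mem_nhdsWithin_of_mem_nhds ((isClopen_pt u).2.mem_nhds rfl),
      (finite_singleton u).subset fun t ht => ?_⟩
    simpa using ht.1
  | cpt ξ =>
    obtain ⟨k, hk⟩ := avoid_S η β ξ
    exact ⟨N ξ k, mem_nhdsWithin_of_mem_nhds ((isOpen_N ξ k).mem_nhds (self_mem_N ξ k)),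
      finite_empty.subset fun t ht => hk t ht.2 ht.1⟩

/-- The bound at a point coded by `α`. -/
def bdN : X → (ℕ → ℕ) → ℕ
  | pt t, α => bd t α
  | cpt _, α => α 0

def bdX (α : ℕ → ℕ) (x : X) : ℝ := (bdN x α : ℝ) + 1

theorem continuous_bdX (x : X) : Continuous fun α : ℕ → ℕ => bdX α x := by
  have h2 : Continuous (bdN x) := by
    cases x with
    | pt t => exact continuous_bd t
    | cpt ξ => exact continuous_apply 0
  exact ((continuous_of_discreteTopology (f := fun n : ℕ => (n : ℝ) + 1))).comp h2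

def Phi (p : (ℕ → ℕ) × (X → ℝ)) : X → ℝ := fun x => bdX p.1 x * p.2 x

theorem continuous_Phi : Continuous Phi :=
  continuous_pi fun x =>
    ((continuous_bdX x).comp continuous_fst).mul ((continuous_apply x).comp continuous_snd)

def cube : Set (X → ℝ) := Set.pi univ fun _ => Icc (-1) 1

theorem isCompact_cube : IsCompact cube := isCompact_univ_pi fun _ => isCompact_Icc

def F (α : ℕ → ℕ) : Set (X → ℝ) := (fun g => Phi (α, g)) '' cube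

theorem isCompact_F (α : ℕ → ℕ) : IsCompact (F α) :=
  isCompact_cube.image (continuous_Phi.comp (Continuous.prodMk_right α))

theorem exists_small (f : X → ℝ) (hf : Continuous f) :
    ∃ M : ℝ, (∀ η, |f (cpt η)| ≤ M) ∧ Small {t | M < |f (pt t)|} := by
  have hU : ∀ ξ, IsOpen {x | |f x| < |f (cpt ξ)| + 1} := fun ξ =>
    isOpen_lt (continuous_abs.comp hf) continuous_const
  choose k hk using fun ξ => hU ξ ξ (by simp)
  obtain ⟨Ξ, h1, h2⟩ := cover k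
  obtain ⟨M, hM⟩ := (Ξ.finite_toSet.image fun ξ => |f (cpt ξ)| + 1).bddAbove
  have hb : ∀ ξ ∈ Ξ, ∀ x ∈ N ξ (k ξ), |f x| ≤ M := fun ξ hξ x hx =>
    (le_of_lt (hk ξ hx)).trans (hM ⟨ξ, hξ, rfl⟩)
  refine ⟨M, fun η => ?_, h2.mono fun t ht ξ hξ hx => absurd (hb ξ hξ _ hx) (not_le.2 ht)⟩
  obtain ⟨ξ, hξ, hx⟩ := h1 η
  exact hb ξ hξ _ hx

theorem exists_bd (f : X → ℝ) (hf : Continuous f) : ∃ α, ∀ x, |f x| ≤ bdX α x := by
  obtain ⟨M, hM, -, hk⟩ := exists_small f hf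
  obtain ⟨α, hα⟩ := hk fun t => ⌈|f (pt t)|⌉₊
  refine ⟨α ⊔ fun _ => ⌈M⌉₊, fun x => ?_⟩
  have h0 : ⌈M⌉₊ ≤ (α ⊔ fun _ => ⌈M⌉₊ : ℕ → ℕ) 0 := le_sup_right (a := α 0)
  have h1 := Nat.le_ceil M
  cases x with
  | cpt η =>
    have h2 : (⌈M⌉₊ : ℝ) ≤ (bdN (cpt η) (α ⊔ fun _ => ⌈M⌉₊) : ℝ) := Nat.cast_le.2 h0
    unfold bdX
    linarith [hM η]
  | pt t =>
    unfold bdX
    by_cases ht : M < |f (pt t)|
    · have h2 : (⌈|f (pt t)|⌉₊ : ℝ) ≤ (bdN (pt t) (α ⊔ fun _ => ⌈M⌉₊) : ℝ) :=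
        Nat.cast_le.2 (hα _ le_sup_left t ht)
      linarith [Nat.le_ceil |f (pt t)|]
    · have h2 : (⌈M⌉₊ : ℝ) ≤ (bdN (pt t) (α ⊔ fun _ => ⌈M⌉₊) : ℝ) :=
        Nat.cast_le.2 (h0.trans (le_bd t _))
      linarith [not_lt.1 ht]

theorem mem_F (f : X → ℝ) (hf : Continuous f) : ∃ α, f ∈ F α := by
  obtain ⟨α, hα⟩ := exists_bd f hf
  have hpos : ∀ x, 0 < bdX α x := fun x => by unfold bdX; positivity
  refine ⟨α, fun x => f x / bdX α x, ?_, ?_⟩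
  · intro x _
    rw [mem_Icc, ← abs_le, abs_div, abs_of_pos (hpos x), div_le_one (hpos x)]
    exact hα x
  · funext x
    have := (hpos x).ne'
    simp only [Phi]
    field_simp

end Pool.Agent.P.MP_750e2a_gt.NK
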