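import Mathlib

/-! Labelled well-founded trees, their codes, and the sequences of labels along a branch. -/

set_option autoImplicit false

open Set Filter Topology

namespace Pool.Agent.P.MP_750e2a_gt.NK

/-- Well-founded countably branching trees whose inner nodes carry a tree as a label. -/
inductive W : Type
  | leaf : W
  | node : W → (ℕ → W) → W

open W

abbrev I : Type := List (Option ℕ)

abbrev L : Type := I → Bool

def code : W → L
  | leaf, _ => false
  | node _ _, [] => true
  | node l _, none :: p => code l p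
  | node _ f, some n :: p => code (f n) p

theorem code_inj : ∀ t u : W, code t = code u → t = u := by
  intro t
  induction t with
  | leaf =>
    intro u h
    cases u with
    | leaf => rfl
    | node l g => have := congrFun h []; simp [code] at this
  | node l f ihl ih =>
    intro u h
    cases u with
    | leaf => have := congrFun h []; simp [code] at this
    | node l' g =>
      have h1 : l = l' := ihl l' (funext fun p => by simpa [code] using congrFun h (none :: p))
      have h2 : f = g := funext fun n =>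
        ih n (g n) (funext fun p => by simpa [code] using congrFun h (some n :: p))
      rw [h1, h2]

def ch (n : ℕ) (ξ : L) : L := fun p => ξ (some n :: p)

def lb (ξ : L) : L := fun p => ξ (none :: p)

def sh (β : ℕ → ℕ) : ℕ → ℕ := fun n => β (n + 1)

/-- The part of a code above the node of length `j` on `β`. -/
def sub (β : ℕ → ℕ) : ℕ → L → L
  | 0, ξ => ξ
  | j + 1, ξ => ch (β j) (sub β j ξ)

theorem sub_succ' (β : ℕ → ℕ) (j : ℕ) (ξ : L) :
    sub β (j + 1) ξ = sub (sh β) j (ch (β 0) ξ) := by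
  induction j with
  | zero => rfl
  | succ j ih => rw [sub, ih]; rfl

theorem sub_congr {β γ : ℕ → ℕ} (ξ : L) : ∀ j, (∀ i < j, β i = γ i) → sub β j ξ = sub γ j ξ := by
  intro j
  induction j with
  | zero => intro _; rfl
  | succ j ih =>
    intro h
    rw [sub, sub, ih fun i hi => h i (by omega), h j (by omega)]

theorem continuous_ch (n : ℕ) : Continuous (ch n) := continuous_pi fun _ => continuous_apply _

theorem continuous_lb : Continuous lb := continuous_pi fun _ => continuous_apply _

theorem continuous_sub (β : ℕ → ℕ) (j : ℕ) : Continuous (sub β j) := by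
  induction j with
  | zero => exact continuous_id
  | succ j ih => exact (continuous_ch (β j)).comp ih

/-- The length of the leaf on `β`. -/
def lev : W → (ℕ → ℕ) → ℕ
  | leaf, _ => 0
  | node _ f, β => lev (f (β 0)) (sh β) + 1

theorem sub_false (β : ℕ → ℕ) (j : ℕ) : sub β j (fun _ => false) = fun _ => false := by
  induction j with
  | zero => rfl
  | succ j ih => rw [sub, ih]; rfl

theorem lt_lev : ∀ (t : W) (β : ℕ → ℕ) (j : ℕ), sub β j (code t) [] = true ↔ j < lev t β := by
  intro t
  induction t with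
  | leaf =>
    intro β j
    have : code leaf = fun _ => false := funext fun _ => by simp [code]
    simp [this, sub_false, lev]
  | node l f _ ih =>
    intro β j
    cases j with
    | zero => simp [sub, code, lev]
    | succ j =>
      have : ch (β 0) (code (node l f)) = code (f (β 0)) := funext fun _ => by simp [ch, code]
      rw [sub_succ', this, ih, lev]
      omega

theorem lev_congr (t : W) {β γ : ℕ → ℕ} (h : ∀ i < lev t β, β i = γ i) : lev t γ = lev t β := by
  have h1 : ∀ j ≤ lev t β, (j < lev t γ ↔ j < lev t β) := fun j hj => by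
    rw [← lt_lev, ← lt_lev, sub_congr (β := β) (γ := γ) _ j fun i hi => h i (by omega)]
  have h2 := h1 _ le_rfl
  by_contra hne
  have h3 : lev t γ < lev t β := by omega
  have := h1 _ h3.le
  omega

/-- Two codes agree at the node of length `j` on `β`, on its label and on its children to the left of `β`. -/
def Ag (β : ℕ → ℕ) (j : ℕ) (a b : L) : Prop :=
  sub β j a [] = sub β j b [] ∧ lb (sub β j a) = lb (sub β j b) ∧
    ∀ m < β j, ch m (sub β j a) = ch m (sub β j b)

theorem Ag.symm {β : ℕ → ℕ} {j : ℕ} {a b : L} (h : Ag β j a b) : Ag β j b a :=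
  ⟨h.1.symm, h.2.1.symm, fun m hm => (h.2.2 m hm).symm⟩

theorem Ag.trans {β : ℕ → ℕ} {j : ℕ} {a b c : L} (h : Ag β j a b) (h' : Ag β j b c) : Ag β j a c :=
  ⟨h.1.trans h'.1, h.2.1.trans h'.2.1, fun m hm => (h.2.2 m hm).trans (h'.2.2 m hm)⟩

theorem Ag.congr {β γ : ℕ → ℕ} {j : ℕ} {a b : L} (h : Ag β j a b) (hc : ∀ i < j + 1, β i = γ i) :
    Ag γ j a b := by
  unfold Ag at h ⊢
  rwa [← sub_congr (β := β) a j fun i hi => hc i (by omega),
    ← sub_congr (β := β) b j fun i hi => hc i (by omega), ← hc j (by omega)]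

theorem isClosed_Ag (β : ℕ → ℕ) (j : ℕ) (a : L) : IsClosed {b | Ag β j a b} := by
  have : {b | Ag β j a b} = {b | sub β j a [] = sub β j b []} ∩
      ({b | lb (sub β j a) = lb (sub β j b)} ∩
        ⋂ m, ⋂ _ : m < β j, {b | ch m (sub β j a) = ch m (sub β j b)}) := by
    ext b; simp [Ag]
  rw [this]
  exact (isClosed_eq continuous_const ((continuous_apply _).comp (continuous_sub β j))).inter
    ((isClosed_eq continuous_const (continuous_lb.comp (continuous_sub β j))).inter
      (isClosed_iInter fun m => isClosed_iInter fun _ =>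
        isClosed_eq continuous_const ((continuous_ch m).comp (continuous_sub β j))))

def Fit (i : ℕ) (β : ℕ → ℕ) (t : W) (ξ : L) : Prop :=
  (∀ j < i, Ag β j (code t) ξ) ∧ sub β i ξ [] = true ∧ lb (sub β i ξ) = code t

theorem Fit.congr {i : ℕ} {β γ : ℕ → ℕ} {t : W} {ξ : L} (h : Fit i β t ξ)
    (hc : ∀ j < i, β j = γ j) : Fit i γ t ξ := by
  refine ⟨fun j hj => (h.1 j hj).congr fun k hk => hc k (by omega), ?_, ?_⟩
  · rw [← sub_congr ξ i hc]; exact h.2.1
  · rw [← sub_congr ξ i hc]; exact h.2.2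

theorem isClosed_Fit (i : ℕ) (β : ℕ → ℕ) (t : W) : IsClosed {ξ | Fit i β t ξ} := by
  have : {ξ | Fit i β t ξ} = (⋂ j, ⋂ _ : j < i, {ξ | Ag β j (code t) ξ}) ∩
      ({ξ | sub β i ξ [] = true} ∩ {ξ | lb (sub β i ξ) = code t}) := by
    ext b; simp [Fit]
  rw [this]
  exact (isClosed_iInter fun j => isClosed_iInter fun _ => isClosed_Ag β j _).inter
    ((isClosed_eq ((continuous_apply _).comp (continuous_sub β i)) continuous_const).inter
      (isClosed_eq (continuous_lb.comp (continuous_sub β i)) continuous_const))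

/-- The labels of `ξ` along `β` that end at their own node and agree with `ξ` to the left of it. -/
def S (ξ : L) (β : ℕ → ℕ) : Set W := {t | Fit (lev t β) β t ξ}

theorem isClosed_S (t : W) : IsClosed {p : L × (ℕ → ℕ) | t ∈ S p.1 p.2} := by
  rw [← isOpen_compl_iff, isOpen_iff_mem_nhds]
  rintro ⟨ξ, β⟩ hp
  have h1 : {ξ' | Fit (lev t β) β t ξ'}ᶜ ∈ 𝓝 ξ := (isClosed_Fit _ β t).isOpen_compl.mem_nhds hp
  have h2 : ∀ᶠ γ in 𝓝 β, ∀ j ∈ Iio (lev t β), γ j = β j :=
    (eventually_all_finite (finite_Iio _)).2 fun j _ =>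
      (continuous_apply j).continuousAt.eventually_mem
        ((isOpen_discrete ({β j} : Set ℕ)).mem_nhds rfl)
  filter_upwards [prod_mem_nhds h1 h2] with q hq hq'
  have h3 : lev t q.2 = lev t β := lev_congr t fun i hi => (hq.2 i hi).symm
  have h4 : Fit (lev t q.2) q.2 t q.1 := hq'
  rw [h3] at h4
  exact hq.1 (h4.congr fun j hj => hq.2 j hj)

theorem S_inj {ξ : L} {β : ℕ → ℕ} {t u : W} (ht : t ∈ S ξ β) (hu : u ∈ S ξ β)
    (h : lev t β = lev u β) : t = u :=
  code_inj _ _ (by rw [← ht.2.2, ← hu.2.2, h])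

theorem S_fin (ξ : L) (β : ℕ → ℕ) (m : ℕ) : {t | t ∈ S ξ β ∧ lev t β ≤ m}.Finite :=
  Set.Finite.of_finite_image (f := fun t => lev t β) ((finite_le_nat m).subset (by
    intro m' hm'
    obtain ⟨t, ht, rfl⟩ := hm'
    exact ht.2)) (fun _ ht _ hu h => S_inj ht.1 hu.1 h)

theorem S_high {ξ : L} {β : ℕ → ℕ} (h : (S ξ β).Infinite) (m : ℕ) : ∃ t ∈ S ξ β, m < lev t β := by
  by_contra hc
  push Not at hc
  exact h ((S_fin ξ β m).subset fun t ht => ⟨ht, hc t ht⟩)

theorem S_countable (ξ : L) (β : ℕ → ℕ) : (S ξ β).Countable :=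
  (countable_iUnion fun m => (S_fin ξ β m).countable).mono (by
    intro t ht
    exact mem_iUnion.2 ⟨lev t β, ht, le_rfl⟩)

theorem not_left {ξ : L} {β γ : ℕ → ℕ} (hβ : (S ξ β).Infinite) (hγ : (S ξ γ).Infinite) (j : ℕ)
    (hj : ∀ i < j, β i = γ i) : ¬ γ j < β j := by
  intro hlt
  obtain ⟨t, ht, hjt⟩ := S_high hβ j
  have h0 : sub γ (j + 1) (code t) = sub γ (j + 1) ξ := by
    rw [sub, sub, ← sub_congr _ j hj, ← sub_congr _ j hj]
    exact (ht.1 j hjt).2.2 _ hlt
  have h1 : ∀ d, sub γ (j + 1 + d) (code t) = sub γ (j + 1 + d) ξ := by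
    intro d
    induction d with
    | zero => exact h0
    | succ d ih => rw [← add_assoc, sub, sub, ih]
  obtain ⟨u, hu, hju⟩ := S_high hγ (j + lev t γ)
  obtain ⟨d, hd⟩ : ∃ d, lev u γ = j + 1 + d := ⟨lev u γ - (j + 1), by omega⟩
  have h2 := hu.2.1
  rw [hd, ← h1, lt_lev] at h2
  omega

theorem S_uni {ξ : L} {β γ : ℕ → ℕ} (hβ : (S ξ β).Infinite) (hγ : (S ξ γ).Infinite) : β = γ := by
  funext j
  induction j using Nat.strong_induction_on with
  | _ j ih =>
    have h1 := not_left hβ hγ j ih
    have h2 := not_left hγ hβ j fun i hi => (ih i hi).symm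
    omega

/-- The set removed from the neighbourhoods of the limit point `ξ`. -/
def R (ξ : L) : Set W := {t | ∃ β, (S ξ β).Infinite ∧ t ∈ S ξ β}

theorem exists_R (ξ : L) : ∃ β, R ξ ⊆ S ξ β := by
  by_cases h : ∃ β, (S ξ β).Infinite
  · obtain ⟨β, hβ⟩ := h
    refine ⟨β, ?_⟩
    rintro t ⟨γ, hγ, ht⟩
    rwa [S_uni hβ hγ]
  · exact ⟨fun _ => 0, fun _ ⟨γ, hγ, _⟩ => absurd ⟨γ, hγ⟩ h⟩

theorem S_eq {ξ η : L} {β : ℕ → ℕ} (h : ∀ j, Ag β j ξ η) : S ξ β ⊆ S η β := fun _ ht =>
  ⟨fun j hj => (ht.1 j hj).trans (h j), (h _).1.symm.trans ht.2.1, (h _).2.1.symm.trans ht.2.2⟩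

/-- The bound at the tree `t` coded by `α`. -/
def bd : W → (ℕ → ℕ) → ℕ
  | leaf, α => α 0
  | node _ f, α => α 0 + ∑ n ∈ Finset.range (α 0 + 1), bd (f n) (sh α)

theorem le_bd (t : W) (α : ℕ → ℕ) : α 0 ≤ bd t α := by
  cases t with
  | leaf => exact le_rfl
  | node l f => exact Nat.le_add_right _ _

theorem lev_bd : ∀ (t : W) (β α : ℕ → ℕ), β ≤ α → α (lev t β) ≤ bd t α := by
  intro t
  induction t with
  | leaf => intro β α _; exact le_rfl
  | node l f _ ih =>
    intro β α h
    have h1 := ih (β 0) (sh β) (sh α) fun n => h (n + 1)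
    have h2 : bd (f (β 0)) (sh α) ≤ ∑ n ∈ Finset.range (α 0 + 1), bd (f n) (sh α) :=
      Finset.single_le_sum (f := fun n => bd (f n) (sh α)) (fun _ _ => Nat.zero_le _)
        (Finset.mem_range.2 (Nat.lt_succ_of_le (h 0)))
    exact (h1.trans h2).trans (Nat.le_add_left _ _)

theorem continuous_bd : ∀ t : W, Continuous (bd t) := by
  intro t
  induction t with
  | leaf => exact continuous_apply 0
  | node l f _ ih =>
    have hs : Continuous sh := continuous_pi fun _ => continuous_apply _
    have h1 : Continuous fun p : ℕ × (ℕ → ℕ) =>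
        ∑ n ∈ Finset.range (p.1 + 1), bd (f n) (sh p.2) :=
      continuous_prod_of_discrete_left.2 fun k =>
        continuous_finsetSum (Finset.range (k + 1)) fun n _ => (ih n).comp hs
    exact (continuous_apply 0).add
      (h1.comp (f := fun α : ℕ → ℕ => (α 0, α)) ((continuous_apply 0).prodMk continuous_id))

/-- Countable sets on which every function is dominated by the bounds. -/
def Small (A : Set W) : Prop :=
  A.Countable ∧ ∀ c : W → ℕ, ∃ α, ∀ α', α ≤ α' → ∀ t ∈ A, c t ≤ bd t α'

theorem Small.mono {A C : Set W} (hC : Small C) (h : A ⊆ C) : Small A :=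
  ⟨hC.1.mono h, fun c => (hC.2 c).imp fun _ hα α' h' t ht => hα α' h' t (h ht)⟩

theorem Small.union {A C : Set W} (hA : Small A) (hC : Small C) : Small (A ∪ C) := by
  refine ⟨hA.1.union hC.1, fun c => ?_⟩
  obtain ⟨α, hα⟩ := hA.2 c
  obtain ⟨γ, hγ⟩ := hC.2 c
  exact ⟨α ⊔ γ, fun α' h t ht => ht.elim (hα α' (le_sup_left.trans h) t)
    (hγ α' (le_sup_right.trans h) t)⟩

theorem small_fin {A : Set W} (h : A.Finite) : Small A := by
  refine ⟨h.countable, fun c => ?_⟩
  obtain ⟨k, hk⟩ := (h.image c).bddAbove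
  exact ⟨fun _ => k, fun α' h' t ht => ((hk ⟨t, ht, rfl⟩).trans (h' 0)).trans (le_bd t α')⟩

theorem small_biUnion {ι : Type} (T : Finset ι) (A : ι → Set W) (h : ∀ i, Small (A i)) :
    Small (⋃ i ∈ T, A i) := by
  classical
  induction T using Finset.induction_on with
  | empty => simpa using small_fin finite_empty
  | insert a T _ ih => rw [Finset.set_biUnion_insert]; exact (h a).union ih

theorem small_S (ξ : L) (β : ℕ → ℕ) : Small (S ξ β) := by
  refine ⟨S_countable ξ β, fun c => ?_⟩
  choose k hk using fun m => ((S_fin ξ β m).image c).bddAbove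
  refine ⟨β ⊔ k, fun α' h t ht => ?_⟩
  exact ((hk (lev t β) ⟨t, ⟨ht, le_rfl⟩, rfl⟩).trans ((le_sup_right.trans h) _)).trans
    (lev_bd t β α' (le_sup_left.trans h))

theorem fin_code (ξ : L) : {t | code t = ξ}.Finite :=
  Set.Subsingleton.finite fun t ht u hu => code_inj t u (ht.trans hu.symm)

end Pool.Agent.P.MP_750e2a_gt.NK
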