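import Pool.Agent.P.MP_750e2a_gt.NkSpace

/-! A separable first countable Lindelöf space: a countable dense set of isolated nodes is added
below the labelled trees and the Cantor cube. -/

set_option autoImplicit false

open Set Filter Topology

namespace Pool.Agent.P.MP_750e2a_gt.SP

open NK (W I L code code_inj S R sub lev lt_lev continuous_sub Ag isClosed_Ag S_fin S_eq exists_R
  Cyl isOpen_Cyl exists_Cyl small_S small_fin small_biUnion fin_code bd le_bd continuous_bd)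

inductive Z : Type
  | pt : W → Z
  | cpt : L → Z
  | nd : Bool × ℕ × ℕ → Z

open Z

noncomputable def q : ℕ → L := TopologicalSpace.denseSeq L

theorem exists_q (ξ : L) (m : ℕ) : ∃ n, q n ∈ Cyl ξ m :=
  (TopologicalSpace.denseRange_denseSeq L).exists_mem_open (isOpen_Cyl ξ m) ⟨ξ, fun _ _ => rfl⟩

noncomputable def E : Z → L
  | pt t => code t
  | cpt ξ => ξ
  | nd d => q d.2.2

/-- Nodes of height at least `m`, and all other points. -/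
def Hi (m : ℕ) : Z → Prop
  | pt _ => True
  | cpt _ => True
  | nd d => m ≤ d.2.1

/-- The points attached to the code `ζ`. -/
def Att (ζ : L) : Z → Prop
  | pt t => code t = ζ
  | cpt _ => False
  | nd d => d.1 = true ∧ q d.2.2 ∈ Cyl ζ d.2.1

theorem Hi.mono {k m : ℕ} (h : k ≤ m) {x : Z} (hx : Hi m x) : Hi k x := by
  cases x with
  | pt t => trivial
  | cpt ξ => trivial
  | nd d => exact h.trans hx

theorem cyl_of_att {m : ℕ} {ζ : L} {x : Z} (h1 : Hi m x) (h2 : Att ζ x) : E x ∈ Cyl ζ m := by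
  cases x with
  | pt t => exact fun i _ => congrFun h2 i
  | cpt ξ => exact h2.elim
  | nd d => exact fun i hi => h2.2 i (hi.trans_le h1)

def C (η : L) (m : ℕ) : Set Z := {x | Hi m x ∧ E x ∈ Cyl η m}

def V (ζ : L) (m : ℕ) : Set Z := {x | Hi m x ∧ Att ζ x}

def N (ξ : L) (m : ℕ) : Set Z := {x | x ∈ C ξ m ∧ ¬ Att ξ x ∧ ∀ t ∈ R ξ, ¬ Att (code t) x}

theorem C_anti (η : L) {k m : ℕ} (h : k ≤ m) : C η m ⊆ C η k :=
  fun _ hx => ⟨hx.1.mono h, fun i hi => hx.2 i (hi.trans_le h)⟩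

theorem V_anti (ζ : L) {k m : ℕ} (h : k ≤ m) : V ζ m ⊆ V ζ k := fun _ hx => ⟨hx.1.mono h, hx.2⟩

theorem N_anti (ξ : L) {k m : ℕ} (h : k ≤ m) : N ξ m ⊆ N ξ k := fun _ hx => ⟨C_anti ξ h hx.1, hx.2⟩

theorem V_sub (ζ : L) (m : ℕ) : V ζ m ⊆ C ζ m := fun _ hx => ⟨hx.1, cyl_of_att hx.1 hx.2⟩

theorem C_trans {η ξ : L} {m : ℕ} (h : η ∈ Cyl ξ m) : C η m ⊆ C ξ m :=
  fun _ hx => ⟨hx.1, fun i hi => (hx.2 i hi).trans (h i hi)⟩

theorem C_both {η ξ : L} {m : ℕ} {x : Z} (h1 : x ∈ C η m) (h2 : x ∈ C ξ m) : η ∈ Cyl ξ m :=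
  fun i hi => (h1.2 i hi).symm.trans (h2.2 i hi)

theorem sep2 {ζ η : L} {m : ℕ} (h : ζ ∉ Cyl η m) {x : Z} (hx : x ∈ C η m) : ¬ Att ζ x :=
  fun ha => h (C_both (V_sub ζ m ⟨hx.1, ha⟩) hx)

theorem far_ne {ζ η : L} (h : ζ ≠ η) : ∃ m, ζ ∉ Cyl η m := by
  obtain ⟨i, hi⟩ := Function.ne_iff.1 h
  exact ⟨Encodable.encode i + 1, fun hx => hi (hx i (Nat.lt_succ_self _))⟩

theorem sep1 {ζ η : L} (h : ζ ≠ η) : ∃ m, ∀ x ∈ C η m, ¬ Att ζ x :=
  (far_ne h).imp fun _ hm _ hx => sep2 hm hx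

theorem sep_fin (η : L) {T : Set W} (hT : T.Finite) :
    ∃ m, ∀ x ∈ C η m, ∀ t ∈ T, code t ≠ η → ¬ Att (code t) x := by
  have h : ∀ t : W, ∃ m, code t ≠ η → ∀ x ∈ C η m, ¬ Att (code t) x := fun t => by
    by_cases ht : code t = η
    · exact ⟨0, fun h => absurd ht h⟩
    · exact (sep1 ht).imp fun _ hm _ => hm
  choose c hc using h
  obtain ⟨k, hk⟩ := (hT.image c).bddAbove
  exact ⟨k, fun x hx t ht hne => hc t hne x (C_anti η (hk ⟨t, ht, rfl⟩) hx)⟩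

theorem far_code (u : W) (β : ℕ → ℕ) : ∃ m, ∀ t, lev u β < lev t β → code t ∉ Cyl (code u) m := by
  have ho : IsOpen {ζ : L | sub β (lev u β) ζ [] = true}ᶜ :=
    (isClosed_eq ((continuous_apply _).comp (continuous_sub β _)) continuous_const).isOpen_compl
  obtain ⟨m, hm⟩ := exists_Cyl (η := code u) (ho.mem_nhds fun h => lt_irrefl _ ((lt_lev u β _).1 h))
  exact ⟨m, fun t ht hc => hm hc ((lt_lev t β _).2 ht)⟩

theorem avV {ξ : L} {β : ℕ → ℕ} {A : Set W} (hA : A ⊆ S ξ β) {u : W} (hu : u ∉ A) :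
    ∃ m, ∀ x ∈ C (code u) m, ∀ t ∈ A, ¬ Att (code t) x := by
  obtain ⟨m, hm⟩ := far_code u β
  obtain ⟨k, hk⟩ := sep_fin (code u) (S_fin ξ β (lev u β))
  refine ⟨max m k, fun x hx t ht => ?_⟩
  by_cases hd : lev t β ≤ lev u β
  · exact hk x (C_anti _ (le_max_right _ _) hx) t ⟨hA ht, hd⟩
      fun h => hu (code_inj _ _ h ▸ ht)
  · exact sep2 (hm t (not_le.1 hd)) (C_anti _ (le_max_left _ _) hx)

theorem avN_fin (η : L) {T : Set W} (hT : T.Finite) :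
    ∃ m, ∀ x ∈ N η m, ∀ t ∈ T, ¬ Att (code t) x := by
  obtain ⟨m, hm⟩ := sep_fin η hT
  refine ⟨m, fun x hx t ht => ?_⟩
  by_cases h : code t = η
  · rw [h]; exact hx.2.1
  · exact hm x hx.1 t ht h

theorem avN (ξ : L) (β : ℕ → ℕ) (η : L) : ∃ m, ∀ x ∈ N η m, ∀ t ∈ S ξ β, ¬ Att (code t) x := by
  by_cases hf : (S ξ β).Finite
  · exact avN_fin η hf
  by_cases h : ∀ j, Ag β j ξ η
  · exact ⟨0, fun x hx t ht => hx.2.2 t ⟨β, Set.Infinite.mono (S_eq h) hf, S_eq h ht⟩⟩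
  · push Not at h
    obtain ⟨j, hj⟩ := h
    obtain ⟨k0, hk0⟩ := exists_Cyl ((isClosed_Ag β j ξ).isOpen_compl.mem_nhds hj)
    obtain ⟨k, hk⟩ := avN_fin η (S_fin ξ β j)
    refine ⟨max k k0, fun x hx t ht => ?_⟩
    by_cases hd : lev t β ≤ j
    · exact hk x (N_anti η (le_max_left _ _) hx) t ⟨ht, hd⟩
    · exact sep2 (fun hc => hk0 hc (ht.1 j (by omega)).symm) (N_anti η (le_max_right _ _) hx).1

theorem avN_att (ζ η : L) : ∃ m, ∀ x ∈ N η m, ¬ Att ζ x := by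
  by_cases h : ζ = η
  · exact ⟨0, fun x hx => h ▸ hx.2.1⟩
  · exact (sep1 h).imp fun _ hm x hx => hm x hx.1

/-- Basic neighbourhoods. -/
def B : Z → ℕ → Set Z
  | pt t, m => V (code t) m
  | cpt ξ, m => N ξ m
  | nd d, _ => {nd d}

theorem B_anti (x : Z) {k m : ℕ} (h : k ≤ m) : B x m ⊆ B x k := by
  cases x with
  | pt t => exact V_anti _ h
  | cpt ξ => exact N_anti _ h
  | nd d => exact Subset.rfl

theorem cpt_mem_N {ξ η : L} {k : ℕ} : cpt η ∈ N ξ k ↔ η ∈ Cyl ξ k :=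
  ⟨fun h => h.1.2, fun h => ⟨⟨trivial, h⟩, fun h => h, fun _ _ h => h⟩⟩

theorem self_mem_B (x : Z) (k : ℕ) : x ∈ B x k := by
  cases x with
  | pt t => exact ⟨trivial, rfl⟩
  | cpt ξ => exact cpt_mem_N.2 fun _ _ => rfl
  | nd d => rfl

instance : TopologicalSpace Z where
  IsOpen U := ∀ x ∈ U, ∃ k, B x k ⊆ U
  isOpen_univ := fun _ _ => ⟨0, subset_univ _⟩
  isOpen_inter U U' hU hU' x h := by
    obtain ⟨k, hk⟩ := hU x h.1
    obtain ⟨m, hm⟩ := hU' x h.2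
    exact ⟨max k m, subset_inter ((B_anti x (le_max_left _ _)).trans hk)
      ((B_anti x (le_max_right _ _)).trans hm)⟩
  isOpen_sUnion T hT x h := by
    obtain ⟨U, hUT, hU⟩ := h
    obtain ⟨k, hk⟩ := hT U hUT x hU
    exact ⟨k, hk.trans (subset_sUnion_of_mem hUT)⟩

theorem isOpen_of {U : Set Z} (h1 : ∀ t, pt t ∈ U → ∃ k, V (code t) k ⊆ U)
    (h2 : ∀ ξ, cpt ξ ∈ U → ∃ k, N ξ k ⊆ U) : IsOpen U := by
  intro x hx
  cases x with
  | pt t => exact h1 t hx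
  | cpt ξ => exact h2 ξ hx
  | nd d => exact ⟨0, singleton_subset_iff.2 hx⟩

theorem isClopen_N (ξ : L) (k : ℕ) : IsClopen (N ξ k) := by
  obtain ⟨β, hβ⟩ := exists_R ξ
  refine ⟨⟨isOpen_of (fun u hu => ?_) (fun η hη => ?_)⟩, isOpen_of (fun u hu => ?_) fun η hη => ?_⟩
  · refine ⟨k, fun x hx hx' => hu ⟨⟨trivial, C_both (V_sub _ _ hx) hx'.1⟩, fun h => ?_, fun t ht h => ?_⟩⟩
    · have h' : code u = ξ := h
      exact hx'.2.1 (h' ▸ hx.2)
    · have h' : code u = code t := h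
      exact hx'.2.2 t ht (h' ▸ hx.2)
  · exact ⟨k, fun x hx hx' => hη (cpt_mem_N.2 (C_both hx.1 hx'.1))⟩
  · obtain ⟨m, hm⟩ := sep1 (ζ := ξ) (η := code u) fun h => hu.2.1 h.symm
    obtain ⟨l, hl⟩ := avV hβ (u := u) fun h => hu.2.2 u h rfl
    refine ⟨max k (max m l), fun x hx => ?_⟩
    have hc := V_sub _ _ hx
    exact ⟨C_trans hu.1.2 (C_anti _ (le_max_left _ _) hc),
      hm x (C_anti _ ((le_max_left _ _).trans (le_max_right _ _)) hc),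
      hl x (C_anti _ ((le_max_right _ _).trans (le_max_right _ _)) hc)⟩
  · obtain ⟨m, hm⟩ := avN_att ξ η
    obtain ⟨l, hl⟩ := avN ξ β η
    refine ⟨max k (max m l), fun x hx => ?_⟩
    exact ⟨C_trans hη.1.2 (C_anti _ (le_max_left _ _) hx.1),
      hm x (N_anti _ ((le_max_left _ _).trans (le_max_right _ _)) hx),
      fun t ht => hl x (N_anti _ ((le_max_right _ _).trans (le_max_right _ _)) hx) t (hβ ht)⟩

theorem isClopen_V (ζ : L) (k : ℕ) : IsClopen (V ζ k) := by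
  refine ⟨⟨isOpen_of (fun u hu => ?_) (fun η _ => ?_)⟩,
    isOpen_of (fun u hu => ?_) fun η hη => hη.2.elim⟩
  · obtain ⟨m, hm⟩ := sep1 (ζ := ζ) (η := code u) fun h => hu ⟨trivial, h.symm⟩
    exact ⟨m, fun x hx hx' => hm x (V_sub _ _ hx) hx'.2⟩
  · obtain ⟨m, hm⟩ := avN_att ζ η
    exact ⟨m, fun x hx hx' => hm x hx hx'.2⟩
  · have h : code u = ζ := hu.2
    exact ⟨k, by rw [h]⟩

theorem isClopen_nd (d : Bool × ℕ × ℕ) : IsClopen ({nd d} : Set Z) := by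
  refine ⟨⟨isOpen_of (fun u _ => ⟨d.2.1 + 1, fun x hx hx' => ?_⟩)
    (fun η _ => ⟨d.2.1 + 1, fun x hx hx' => ?_⟩)⟩,
    isOpen_of (fun u hu => by simp at hu) fun η hη => by simp at hη⟩
  · rw [mem_singleton_iff.1 hx'] at hx
    exact Nat.not_succ_le_self _ hx.1
  · rw [mem_singleton_iff.1 hx'] at hx
    exact Nat.not_succ_le_self _ hx.1.1

theorem isClopen_B (x : Z) (k : ℕ) : IsClopen (B x k) := by
  cases x with
  | pt t => exact isClopen_V _ k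
  | cpt ξ => exact isClopen_N ξ k
  | nd d => exact isClopen_nd d

theorem hasBasis_B (x : Z) : (𝓝 x).HasBasis (fun _ => True) (B x) := by
  refine ⟨fun U => ⟨fun hU => ?_, fun ⟨k, _, hk⟩ =>
    mem_of_superset ((isClopen_B x k).2.mem_nhds (self_mem_B x k)) hk⟩⟩
  obtain ⟨U', hVU, hV, hx⟩ := mem_nhds_iff.1 hU
  obtain ⟨k, hk⟩ := hV x hx
  exact ⟨k, trivial, hk.trans hVU⟩

instance : FirstCountableTopology Z :=
  ⟨fun x => HasCountableBasis.isCountablyGenerated ⟨hasBasis_B x, to_countable _⟩⟩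

instance : T0Space Z := by
  refine (t0Space_iff_exists_isOpen_xor_mem Z).2 ?_
  intro x y hxy
  have hn : ∀ d z, z ≠ nd d → ∃ U : Set Z, IsOpen U ∧ nd d ∈ U ∧ z ∉ U := fun d z h =>
    ⟨{nd d}, (isClopen_nd d).2, rfl, h⟩
  have hp : ∀ t η, ∃ U : Set Z, IsOpen U ∧ pt t ∈ U ∧ cpt η ∉ U := fun t η =>
    ⟨V (code t) 0, (isClopen_V _ 0).2, ⟨trivial, rfl⟩, fun h => h.2⟩
  cases x with
  | nd d => exact (hn d y hxy.symm).imp fun U h => ⟨h.1, Or.inl h.2⟩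
  | pt t =>
    cases y with
    | nd d => exact (hn d _ hxy).imp fun U h => ⟨h.1, Or.inr h.2⟩
    | pt u => exact ⟨V (code t) 0, (isClopen_V _ 0).2,
        Or.inl ⟨⟨trivial, rfl⟩, fun h => hxy (by rw [code_inj _ _ h.2])⟩⟩
    | cpt η => exact (hp t η).imp fun U h => ⟨h.1, Or.inl h.2⟩
  | cpt ξ =>
    cases y with
    | nd d => exact (hn d _ hxy).imp fun U h => ⟨h.1, Or.inr h.2⟩
    | pt u => exact (hp u ξ).imp fun U h => ⟨h.1, Or.inr h.2⟩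
    | cpt η =>
      obtain ⟨m, hm⟩ := far_ne (ζ := η) (η := ξ) fun h => hxy (by rw [h])
      exact ⟨N ξ m, (isClopen_N ξ m).2, Or.inl ⟨self_mem_B (cpt ξ) m, fun h => hm h.1.2⟩⟩

instance : CompletelyRegularSpace Z := by
  refine CompletelyRegularSpace.of_isTopologicalBasis_clopens
    (TopologicalSpace.isTopologicalBasis_of_isOpen_of_nhds (fun _ hU => hU.2) ?_)
  intro x U hx hU
  obtain ⟨k, hk⟩ := hU x hx
  exact ⟨B x k, isClopen_B x k, self_mem_B x k, hk⟩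

instance : T35Space Z where

instance : TopologicalSpace.SeparableSpace Z := by
  refine ⟨range nd, countable_range _, dense_iff_inter_open.2 ?_⟩
  rintro U hU ⟨x, hx⟩
  obtain ⟨k, hk⟩ := hU x hx
  cases x with
  | pt t =>
    obtain ⟨n, hn⟩ := exists_q (code t) k
    exact ⟨nd (true, k, n), hk ⟨le_rfl, rfl, hn⟩, _, rfl⟩
  | cpt ξ =>
    obtain ⟨n, hn⟩ := exists_q ξ k
    exact ⟨nd (false, k, n), hk ⟨⟨le_rfl, hn⟩, fun h => Bool.false_ne_true h.1,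
      fun _ _ h => Bool.false_ne_true h.1⟩, _, rfl⟩
  | nd d => exact ⟨nd d, hx, _, rfl⟩

theorem cover (k : L → ℕ) : ∃ Ξ : Finset L, (∀ η, ∃ ξ ∈ Ξ, cpt η ∈ N ξ (k ξ)) ∧
    NK.Small {t | ∀ ξ ∈ Ξ, pt t ∉ N ξ (k ξ)} := by
  obtain ⟨Ξ, hΞ⟩ := isCompact_univ.elim_finite_subcover (fun ξ : L => Cyl ξ (k ξ))
    (fun ξ => isOpen_Cyl ξ _) (fun η _ => mem_iUnion.2 ⟨η, fun _ _ => rfl⟩)
  have h : ∀ η, ∃ ξ ∈ Ξ, η ∈ Cyl ξ (k ξ) := fun η => by simpa using hΞ (mem_univ η)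
  refine ⟨Ξ, fun η => (h η).imp fun ξ hξ => ⟨hξ.1, cpt_mem_N.2 hξ.2⟩, ?_⟩
  choose β hβ using exists_R
  refine (small_biUnion Ξ (fun ξ => S ξ (β ξ) ∪ {t | code t = ξ})
    fun ξ => (small_S ξ _).union (small_fin (fin_code ξ))).mono ?_
  intro t ht
  obtain ⟨ξ, hξ, hc⟩ := h (code t)
  by_contra hn
  simp only [mem_iUnion, not_exists] at hn
  refine ht ξ hξ ⟨⟨trivial, hc⟩, fun h' => hn ξ hξ (Or.inr h'), fun u hu h' => hn ξ hξ (Or.inl ?_)⟩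
  rw [code_inj t u h']
  exact hβ ξ hu

instance : LindelofSpace Z := by
  refine ⟨isLindelof_of_countable_subcover ?_⟩
  intro ι U hU hcov
  have hc : ∀ x : Z, ∃ i, x ∈ U i := fun x => mem_iUnion.1 (hcov (mem_univ x))
  choose c hc using hc
  choose k hk using fun ξ => hU (c (cpt ξ)) (cpt ξ) (hc _)
  obtain ⟨Ξ, h1, h2⟩ := cover k
  refine ⟨(fun ξ => c (cpt ξ)) '' Ξ ∪ ((fun t => c (pt t)) '' {t | ∀ ξ ∈ Ξ, pt t ∉ N ξ (k ξ)} ∪
      range fun d => c (nd d)),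
    (Ξ.countable_toSet.image _).union ((h2.1.image _).union (countable_range _)), ?_⟩
  intro x _
  simp only [mem_iUnion]
  by_cases hx : ∃ ξ ∈ Ξ, x ∈ N ξ (k ξ)
  · obtain ⟨ξ, hξ, hx⟩ := hx
    exact ⟨c (cpt ξ), Or.inl ⟨ξ, hξ, rfl⟩, hk ξ hx⟩
  · cases x with
    | cpt η => exact absurd (h1 η) hx
    | pt t => exact ⟨c (pt t), Or.inr (Or.inl ⟨t, fun ξ hξ h => hx ⟨ξ, hξ, h⟩, rfl⟩), hc _⟩
    | nd d => exact ⟨c (nd d), Or.inr (Or.inr ⟨d, rfl⟩), hc _⟩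

theorem isClosed_pt {ξ : L} {β : ℕ → ℕ} {A : Set W} (hA : A ⊆ S ξ β) : IsClosed (pt '' A) := by
  refine ⟨isOpen_of (fun u hu => ⟨0, fun x hx => ?_⟩) fun η _ => ?_⟩
  · rintro ⟨t, ht, rfl⟩
    exact hu ⟨t, ht, by rw [code_inj t u hx.2]⟩
  · obtain ⟨m, hm⟩ := avN ξ β η
    refine ⟨m, fun x hx => ?_⟩
    rintro ⟨t, ht, rfl⟩
    exact hm _ hx t (hA ht) rfl

/-- The bound at a point coded by `α`. -/
def bdN : Z → (ℕ → ℕ) → ℕ
  | pt t, α => bd t α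
  | cpt _, α => α 0
  | nd d, α => α (Encodable.encode d)

def bdZ (α : ℕ → ℕ) (x : Z) : ℝ := (bdN x α : ℝ) + 1

theorem continuous_bdZ (x : Z) : Continuous fun α : ℕ → ℕ => bdZ α x := by
  have h2 : Continuous (bdN x) := by
    cases x with
    | pt t => exact continuous_bd t
    | cpt ξ => exact continuous_apply 0
    | nd d => exact continuous_apply _
  exact ((continuous_of_discreteTopology (f := fun n : ℕ => (n : ℝ) + 1))).comp h2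

def Phi (p : (ℕ → ℕ) × (Z → ℝ)) : Z → ℝ := fun x => bdZ p.1 x * p.2 x

theorem continuous_Phi : Continuous Phi :=
  continuous_pi fun x =>
    ((continuous_bdZ x).comp continuous_fst).mul ((continuous_apply x).comp continuous_snd)

def cube : Set (Z → ℝ) := Set.pi univ fun _ => Icc (-1) 1

theorem isCompact_cube : IsCompact cube := isCompact_univ_pi fun _ => isCompact_Icc

def F (α : ℕ → ℕ) : Set (Z → ℝ) := (fun g => Phi (α, g)) '' cube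

theorem isCompact_F (α : ℕ → ℕ) : IsCompact (F α) :=
  isCompact_cube.image (continuous_Phi.comp (Continuous.prodMk_right α))

theorem usc_F (σ : ℕ → ℕ) (U : Set (Z → ℝ)) (hU : IsOpen U) (h : F σ ⊆ U) :
    ∀ᶠ τ in 𝓝 σ, F τ ⊆ U := by
  have := isCompact_cube.eventually_forall_of_forall_eventually (x₀ := σ)
    (P := fun τ g => Phi (τ, g) ∈ U) (fun g hg =>
      continuous_Phi.continuousAt.eventually_mem (hU.mem_nhds (h ⟨g, hg, rfl⟩)))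
  refine this.mono ?_
  rintro τ hτ _ ⟨g, hg, rfl⟩
  exact hτ g hg

theorem exists_small (f : Z → ℝ) (hf : Continuous f) :
    ∃ M : ℝ, (∀ η, |f (cpt η)| ≤ M) ∧ NK.Small {t | M < |f (pt t)|} := by
  have hU : ∀ ξ, IsOpen {x | |f x| < |f (cpt ξ)| + 1} := fun ξ =>
    isOpen_lt (continuous_abs.comp hf) continuous_const
  choose k hk using fun ξ => hU ξ (cpt ξ) (by simp)
  obtain ⟨Ξ, h1, h2⟩ := cover k
  obtain ⟨M, hM⟩ := (Ξ.finite_toSet.image fun ξ => |f (cpt ξ)| + 1).bddAbove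
  have hb : ∀ ξ ∈ Ξ, ∀ x ∈ N ξ (k ξ), |f x| ≤ M := fun ξ hξ x hx =>
    (le_of_lt (hk ξ hx)).trans (hM ⟨ξ, hξ, rfl⟩)
  refine ⟨M, fun η => ?_, h2.mono fun t ht ξ hξ hx => absurd (hb ξ hξ _ hx) (not_le.2 ht)⟩
  obtain ⟨ξ, hξ, hx⟩ := h1 η
  exact hb ξ hξ _ hx

theorem exists_bd (f : Z → ℝ) (hf : Continuous f) : ∃ α, ∀ x, |f x| ≤ bdZ α x := by
  obtain ⟨M, hM, -, hk⟩ := exists_small f hf
  obtain ⟨α, hα⟩ := hk fun t => ⌈|f (pt t)|⌉₊
  obtain ⟨γ, hγ⟩ : ∃ γ : ℕ → ℕ, ∀ d : Bool × ℕ × ℕ, γ (Encodable.encode d) = ⌈|f (nd d)|⌉₊ :=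
    ⟨fun n => ((Encodable.decode n).map fun d : Bool × ℕ × ℕ => ⌈|f (nd d)|⌉₊).getD 0,
      fun d => by beta_reduce; rw [Encodable.encodek]; rfl⟩
  obtain ⟨a, h1, h2, h3⟩ : ∃ a : ℕ → ℕ, α ≤ a ∧ γ ≤ a ∧ ⌈M⌉₊ ≤ a 0 :=
    ⟨fun n => α n + γ n + ⌈M⌉₊, fun n => by dsimp only; omega, fun n => by dsimp only; omega,
      by dsimp only; omega⟩
  refine ⟨a, fun x => ?_⟩
  have h4 := Nat.le_ceil M
  unfold bdZ
  cases x with
  | cpt η =>
    have h5 : (⌈M⌉₊ : ℝ) ≤ (bdN (cpt η) a : ℝ) := Nat.cast_le.2 h3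
    linarith [hM η]
  | nd d =>
    have h5 : (⌈|f (nd d)|⌉₊ : ℝ) ≤ (bdN (nd d) a : ℝ) := Nat.cast_le.2 ((hγ d).symm.le.trans (h2 _))
    linarith [Nat.le_ceil |f (nd d)|]
  | pt t =>
    by_cases ht : M < |f (pt t)|
    · have h5 : (⌈|f (pt t)|⌉₊ : ℝ) ≤ (bdN (pt t) a : ℝ) := Nat.cast_le.2 (hα a h1 t ht)
      linarith [Nat.le_ceil |f (pt t)|]
    · have h5 : (⌈M⌉₊ : ℝ) ≤ (bdN (pt t) a : ℝ) := Nat.cast_le.2 (h3.trans (le_bd t a))
      linarith [not_lt.1 ht]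

theorem mem_F (f : Z → ℝ) (hf : Continuous f) : ∃ α, f ∈ F α := by
  obtain ⟨α, hα⟩ := exists_bd f hf
  have hpos : ∀ x, 0 < bdZ α x := fun x => by unfold bdZ; positivity
  refine ⟨α, fun x => f x / bdZ α x, ?_, ?_⟩
  · intro x _
    rw [mem_Icc, ← abs_le, abs_div, abs_of_pos (hpos x), div_le_one (hpos x)]
    exact hα x
  · funext x
    have := (hpos x).ne'
    simp only [Phi]
    field_simp

end Pool.Agent.P.MP_750e2a_gt.SP
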