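import Pool.Agent.P.MP_750e2a_gt.FCKan

set_option autoImplicit false

namespace Pool.Agent.P.MP_750e2a_gt.VariantFirstCountable

open Pool.Agent.P.MP_750e2a_gt

theorem result :
    ∃ (X : Type) (_ : TopologicalSpace X), T35Space X ∧ FirstCountableTopology X ∧
      LindelofSpace X ∧ ¬ SigmaCompactSpace X ∧
      ∃ F : (ℕ → ℕ) → Set (X → ℝ),
        (∀ σ, IsCompact (F σ)) ∧
        (⋃ σ, F σ) = {f : X → ℝ | Continuous f} ∧
        (∀ (σ : ℕ → ℕ) (U : Set (X → ℝ)), IsOpen U → F σ ⊆ U →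
            ∀ᶠ τ in nhds σ, F τ ⊆ U) :=
  ⟨FC.X, inferInstance, inferInstance, inferInstance, inferInstance, FC.not_sigmaCompact,
    FC.K, FC.isCompact_K, FC.iUnion_K, FC.usc_K⟩

end Pool.Agent.P.MP_750e2a_gt.VariantFirstCountable
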